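import Mathlib

set_option autoImplicit false

/-!
# Steps of the shortcut map

`R τ o x z` : the shortcut map sends `x` to `z` in `τ` steps, exactly `o` of the steps being odd.
-/

namespace Pool.Agent.W_e21d3a_h6

/-- the two invariance rules of a Collatz-invariant predicate -/
structure Inv (g : ℕ → Prop) : Prop where
  dbl : ∀ n, 0 < n → (g (2 * n) ↔ g n)
  odd : ∀ n, (g (2 * n + 1) ↔ g (3 * n + 2))

/-- `x` is sent to `z` in `τ` steps of the shortcut map, `o` of which are odd -/
inductive R : ℕ → ℕ → ℕ → ℕ → Prop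
  | refl (x : ℕ) : R 0 0 x x
  | even {τ o x z : ℕ} : R τ o x z → R (τ + 1) o (2 * x) z
  | odd {τ o x z : ℕ} : R τ o (3 * x + 2) z → R (τ + 1) (o + 1) (2 * x + 1) z

theorem R.even' {τ o x y z : ℕ} (h : R τ o x z) (hy : y = 2 * x) : R (τ + 1) o y z := by
  subst hy; exact R.even h

theorem R.odd' {τ o x y w z : ℕ} (h : R τ o w z) (hy : y = 2 * x + 1) (hw : w = 3 * x + 2) :
    R (τ + 1) (o + 1) y z := by
  subst hy; subst hw; exact R.odd h

/-- translation -/
theorem R.add {τ o x z : ℕ} (h : R τ o x z) : ∀ Q : ℕ, R τ o (x + 2 ^ τ * Q) (z + 3 ^ o * Q) := by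
  induction h with
  | refl x => intro Q; simpa using R.refl (x + Q)
  | even _ ih =>
    intro Q
    exact R.even' (ih Q) (by rw [pow_succ]; ring)
  | @odd τ o x z _ ih =>
    intro Q
    have h1 := ih (3 * Q)
    rw [show z + 3 ^ o * (3 * Q) = z + 3 ^ (o + 1) * Q by rw [pow_succ]; ring] at h1
    exact R.odd' (x := x + 2 ^ τ * Q) h1 (by rw [pow_succ]; ring) (by ring)

theorem R.trans {τ o x y : ℕ} (h : R τ o x y) : ∀ {τ' o' z : ℕ}, R τ' o' y z →
    R (τ + τ') (o + o') x z := by
  induction h with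
  | refl x => intro τ' o' z h'; simpa using h'
  | @even τ o x y _ ih =>
    intro τ' o' z h'
    have h1 := R.even (ih h')
    rwa [show τ + τ' + 1 = τ + 1 + τ' by ring] at h1
  | @odd τ o x y _ ih =>
    intro τ' o' z h'
    have h1 := R.odd (ih h')
    rwa [show τ + τ' + 1 = τ + 1 + τ' by ring, show o + o' + 1 = o + 1 + o' by ring] at h1

theorem R.inv {g : ℕ → Prop} (hg : Inv g) {τ o x z : ℕ} (h : R τ o x z) (hx : 0 < x) :
    (g x ↔ g z) := by
  induction h with
  | refl x => exact Iff.rfl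
  | @even τ o x z _ ih =>
    have hx' : 0 < x := by omega
    exact (hg.dbl x hx').trans (ih hx')
  | @odd τ o x z _ ih => exact (hg.odd x).trans (ih (by omega))

theorem R.le {τ o x z : ℕ} (h : R τ o x z) : 3 ^ o * x ≤ 2 ^ τ * z := by
  induction h with
  | refl x => simp
  | @even τ o x z _ ih =>
    calc 3 ^ o * (2 * x) = 2 * (3 ^ o * x) := by ring
      _ ≤ 2 * (2 ^ τ * z) := Nat.mul_le_mul_left _ ih
      _ = 2 ^ (τ + 1) * z := by rw [pow_succ]; ring
  | @odd τ o x z _ ih =>
    calc 3 ^ (o + 1) * (2 * x + 1) ≤ 2 * (3 ^ o * (3 * x + 2)) := by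
          rw [pow_succ]; nlinarith [Nat.zero_le (3 ^ o)]
      _ ≤ 2 * (2 ^ τ * z) := Nat.mul_le_mul_left _ ih
      _ = 2 ^ (τ + 1) * z := by rw [pow_succ]; ring

theorem R.lt {τ o x z : ℕ} (h : R τ o x z) : 2 ^ τ * z + 3 ^ o ≤ 3 ^ o * (x + 2 ^ τ) := by
  induction h with
  | refl x => simp
  | @even τ o x z _ ih =>
    have h3 : 0 < 3 ^ o := by positivity
    rw [pow_succ 2 τ]
    nlinarith
  | @odd τ o x z _ ih =>
    have h3 : 0 < 3 ^ o := by positivity
    have h2 : 0 < 2 ^ τ := by positivity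
    have h4 : 3 ^ o * 1 ≤ 3 ^ o * 2 ^ τ := Nat.mul_le_mul_left _ h2
    rw [pow_succ 2 τ, pow_succ 3 o]
    nlinarith

theorem R.pow (k z : ℕ) : R k 0 (2 ^ k * z) z := by
  induction k with
  | zero => simpa using R.refl z
  | succ k ih => exact R.even' ih (by rw [pow_succ]; ring)

theorem R.mod3 {τ o x z : ℕ} (h : R τ o x z) : (x % 3 ≠ 0 ∨ o ≠ 0) → z % 3 ≠ 0 := by
  induction h with
  | refl x => intro h; rcases h with h | h
              · exact h
              · exact absurd rfl h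
  | @even τ o x z _ ih =>
    intro h
    apply ih
    rcases h with h | h
    · left; omega
    · right; exact h
  | @odd τ o x z _ ih =>
    intro _
    apply ih
    left; omega

end Pool.Agent.W_e21d3a_h6
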