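import Pool.Agent.W_e21d3a_h6.Kill
import Pool.Agent.W_e21d3a_h20.Approx

set_option autoImplicit false

/-!
# Every class has elements in every large window and in every residue class prime to 3
-/

namespace Pool.Agent.W_e21d3a_h6

/-- `2 ^ e < 3 ^ c < (1 + 1 / C) 2 ^ e` -/
theorem dens (C : ℕ) (hC : 0 < C) : ∃ c e : ℕ, 2 ^ e < 3 ^ c ∧ C * 3 ^ c ≤ (C + 1) * 2 ^ e := by
  obtain ⟨u, w, a, b, h, hab, hC'⟩ := W_e21d3a_h20.approx C
  rcases h with ⟨rfl, rfl⟩ | ⟨rfl, rfl⟩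
  · refine ⟨u, w, hab, ?_⟩
    have h1 : C * 3 ^ u = C * (3 ^ u - 2 ^ w) + C * 2 ^ w := by
      rw [← mul_add]; congr 1; omega
    rw [h1, add_mul]; omega
  · -- `3 ^ u < 2 ^ w ≤ (1 + 1/C) 3 ^ u`
    have h1 : C * 2 ^ w ≤ (C + 1) * 3 ^ u := by
      have h1 : C * 2 ^ w = C * (2 ^ w - 3 ^ u) + C * 3 ^ u := by
        rw [← mul_add]; congr 1; omega
      rw [h1, add_mul]; omega
    have hw : 0 < w := by
      rcases Nat.eq_zero_or_pos w with h0 | h0
      · subst h0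
        have : 0 < 3 ^ u := by positivity
        omega
      · exact h0
    -- the ratio is unbounded
    have hex : ∃ j, 2 * (3 ^ u) ^ j ≤ (2 ^ w) ^ j := by
      have h3 : (0:ℝ) < 3 ^ u := by positivity
      have hσ : (1:ℝ) < 2 ^ w / 3 ^ u := by
        rw [one_lt_div h3]; exact_mod_cast hab
      obtain ⟨j, hj⟩ := pow_unbounded_of_one_lt 2 hσ
      refine ⟨j, ?_⟩
      rw [div_pow, lt_div_iff₀ (by positivity)] at hj
      exact_mod_cast hj.le
    classical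
    set j := Nat.find hex with hjdef
    have hj := Nat.find_spec hex
    rw [← hjdef] at hj
    have hj0 : j ≠ 0 := by
      intro h0
      rw [h0] at hj
      norm_num at hj
    obtain ⟨i, hi⟩ : ∃ i, j = i + 1 := ⟨j - 1, by omega⟩
    have hmin := Nat.find_min hex (m := i) (by omega)
    push Not at hmin
    rw [hi] at hj
    -- 2^(w i) < 2 * 3^(u i), 2 * 3^(u (i+1)) ≤ 2^(w(i+1))
    rcases Nat.eq_zero_or_pos i with h0 | h0
    · -- i = 0 : 2 * 3^u ≤ 2^w, so C * 2 ≤ C+1, C = 1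
      subst h0
      simp only [zero_add, pow_one] at hj
      have h4 : C * (2 * 3 ^ u) ≤ (C + 1) * 3 ^ u := (Nat.mul_le_mul_left C hj).trans h1
      have h5 : 0 < 3 ^ u := by positivity
      have h6 : C * 2 ≤ C + 1 := by
        have : (C * 2) * 3 ^ u ≤ (C + 1) * 3 ^ u := by
          calc (C * 2) * 3 ^ u = C * (2 * 3 ^ u) := by ring
            _ ≤ _ := h4
        exact Nat.le_of_mul_le_mul_right this h5
      have hC1 : C = 1 := by omega
      subst hC1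
      exact ⟨1, 1, by norm_num, by norm_num⟩
    · refine ⟨u * i, w * i - 1, ?_, ?_⟩
      · have h4 : 2 ^ (w * i) = 2 * 2 ^ (w * i - 1) := by
          rw [← pow_succ']
          congr 1
          have : 1 ≤ w * i := Nat.mul_pos hw h0
          omega
        rw [← pow_mul, ← pow_mul, h4] at hmin
        omega
      · have h4 : 2 ^ (w * i) = 2 * 2 ^ (w * i - 1) := by
          rw [← pow_succ']
          congr 1
          have : 1 ≤ w * i := Nat.mul_pos hw h0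
          omega
        -- C * 2 * 3^(ui) * 3^u ≤ C * 2^(wi) * 2^w ≤ (C+1) 3^u * 2^(wi)
        rw [pow_succ, pow_succ, ← pow_mul, ← pow_mul, h4] at hj
        have h5 : (2 * 3 ^ u) * (C * 3 ^ (u * i)) ≤ (2 * 3 ^ u) * ((C + 1) * 2 ^ (w * i - 1)) := by
          calc (2 * 3 ^ u) * (C * 3 ^ (u * i)) = C * (2 * (3 ^ (u * i) * 3 ^ u)) := by ring
            _ ≤ C * (2 * 2 ^ (w * i - 1) * 2 ^ w) := Nat.mul_le_mul_left _ hj
            _ = (2 * 2 ^ (w * i - 1)) * (C * 2 ^ w) := by ring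
            _ ≤ (2 * 2 ^ (w * i - 1)) * ((C + 1) * 3 ^ u) := Nat.mul_le_mul_left _ h1
            _ = _ := by ring
        exact Nat.le_of_mul_le_mul_left h5 (by positivity)

/-- the numbers `2 ^ t / 3 ^ o`, `o ≤ N`, are multiplicatively `1 + 1/C`-dense -/
theorem dens2 (C : ℕ) (hC : 0 < C) : ∃ N : ℕ, ∀ Y : ℝ, 1 ≤ Y → ∃ o t : ℕ, 1 ≤ o ∧ o ≤ N ∧
    Y ≤ 2 ^ t / 3 ^ o ∧ (2:ℝ) ^ t / 3 ^ o < (1 + 1 / C) * Y := by
  obtain ⟨c, e, h1, h2⟩ := dens C hC
  have hc : 0 < c := by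
    rcases Nat.eq_zero_or_pos c with h0 | h0
    · subst h0
      have : 0 < 2 ^ e := by positivity
      omega
    · exact h0
  have h2e : (0:ℝ) < 2 ^ e := by positivity
  have h3c : (0:ℝ) < 3 ^ c := by positivity
  have hCr : (0:ℝ) < C := by exact_mod_cast hC
  set ρ : ℝ := 3 ^ c / 2 ^ e with hρ
  have hρ1 : 1 < ρ := by rw [hρ, one_lt_div h2e]; exact_mod_cast h1
  have hρ2 : ρ ≤ 1 + 1 / C := by
    rw [hρ, div_le_iff₀ h2e]
    have h3 : (C:ℝ) * 3 ^ c ≤ (C + 1) * 2 ^ e := by exact_mod_cast h2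
    have h4 : (1 + 1 / (C:ℝ)) * 2 ^ e = ((C + 1) * 2 ^ e) / C := by field_simp
    rw [h4, le_div_iff₀ hCr]
    linarith
  obtain ⟨J, hJ⟩ := pow_unbounded_of_one_lt 2 hρ1
  refine ⟨c * J, fun Y hY => ?_⟩
  classical
  -- t' minimal with ρ Y ≤ 2 ^ t'
  have hext : ∃ t : ℕ, ρ * Y ≤ 2 ^ t := by
    obtain ⟨t, ht⟩ := pow_unbounded_of_one_lt (ρ * Y) (by norm_num : (1:ℝ) < 2)
    exact ⟨t, ht.le⟩
  set t := Nat.find hext with htdef
  have ht := Nat.find_spec hext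
  rw [← htdef] at ht
  have hρY : 1 < ρ * Y := by nlinarith
  have ht0 : t ≠ 0 := by
    intro h0
    rw [h0] at ht
    norm_num at ht
    linarith
  obtain ⟨t1, ht1⟩ : ∃ t1, t = t1 + 1 := ⟨t - 1, by omega⟩
  have htmin := Nat.find_min hext (m := t1) (by omega)
  push Not at htmin
  have ht2 : (2:ℝ) ^ t < 2 * (ρ * Y) := by rw [ht1, pow_succ]; linarith
  -- j minimal with 2 ^ t < ρ ^ (j+1) Y
  have hexj : ∃ j : ℕ, (2:ℝ) ^ t < ρ ^ (j + 1) * Y := by
    refine ⟨J, ht2.trans ?_⟩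
    rw [pow_succ]
    have : 0 < ρ * Y := by linarith
    nlinarith
  set j := Nat.find hexj with hjdef
  have hj := Nat.find_spec hexj
  rw [← hjdef] at hj
  have hjJ : j ≤ J := by
    apply Nat.find_le
    refine ht2.trans ?_
    rw [pow_succ]
    have : 0 < ρ * Y := by linarith
    nlinarith
  have hj0 : j ≠ 0 := by
    intro h0
    rw [h0] at hj
    norm_num at hj
    linarith
  obtain ⟨i, hi⟩ : ∃ i, j = i + 1 := ⟨j - 1, by omega⟩
  have hjmin := Nat.find_min hexj (m := i) (by omega)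
  push Not at hjmin
  rw [← hi] at hjmin
  have hρj : 0 < ρ ^ j := by positivity
  have hfrac : (2:ℝ) ^ (t + e * j) / 3 ^ (c * j) = 2 ^ t / ρ ^ j := by
    rw [hρ, div_pow, pow_add, ← pow_mul, ← pow_mul]
    field_simp
  refine ⟨c * j, t + e * j, ?_, ?_, ?_, ?_⟩
  · exact Nat.mul_pos hc (by omega)
  · exact Nat.mul_le_mul_left _ hjJ
  · rw [hfrac, le_div_iff₀ hρj, mul_comm]
    exact hjmin
  · rw [hfrac, div_lt_iff₀ hρj]
    rw [pow_succ] at hj
    have h5 : ρ ^ j * ρ * Y ≤ (1 + 1 / C) * Y * ρ ^ j := by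
      have h6 : 0 ≤ ρ ^ j * Y := by positivity
      calc ρ ^ j * ρ * Y = ρ * (ρ ^ j * Y) := by ring
        _ ≤ (1 + 1 / C) * (ρ ^ j * Y) := mul_le_mul_of_nonneg_right hρ2 h6
        _ = _ := by ring
    exact hj.trans_le h5

variable {g : ℕ → Prop}

/-- every class contains a number prime to 3 -/
theorem exists_unit (hg : Inv g) {s : ℕ} (hs : 0 < s) : ∃ s', s' % 3 ≠ 0 ∧ (g s ↔ g s') := by
  induction s using Nat.strong_induction_on with
  | _ s ih =>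
    rcases Nat.even_or_odd' s with ⟨m, rfl | rfl⟩
    · obtain ⟨s', h1, h2⟩ := ih m (by omega) (by omega)
      exact ⟨s', h1, (hg.dbl m (by omega)).trans h2⟩
    · exact ⟨3 * m + 2, by omega, hg.odd m⟩

theorem dbl_pow (hg : Inv g) {s : ℕ} (hs : 0 < s) (e : ℕ) : g (2 ^ e * s) ↔ g s :=
  (R.pow e s).inv hg (by positivity)

/-- every class has an element in every large window in the residue class of 1 modulo `3 ^ q` -/
theorem hit (hg : Inv g) (q K : ℕ) (hK : 0 < K) {s : ℕ} (hs : 0 < s) :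
    ∃ X : ℕ, ∀ L, X ≤ L → ∃ x, L ≤ x ∧ K * x < (K + 1) * L ∧ x ≡ 1 [MOD 3 ^ q] ∧ (g x ↔ g s) := by
  obtain ⟨s0, hs0, hgs0⟩ := exists_unit hg hs
  obtain ⟨N, hN⟩ := dens2 (2 * K) (by omega)
  -- s1 = 2 ^ e s0 is large
  set e := 4 * K * 3 ^ N with he
  set s1 := 2 ^ e * s0 with hs1
  have hs0pos : 0 < s0 := by omega
  have hs1big : 4 * K * 3 ^ N ≤ s1 := by
    calc 4 * K * 3 ^ N ≤ 2 ^ e := (Nat.lt_two_pow_self).le
      _ ≤ 2 ^ e * s0 := Nat.le_mul_of_pos_right _ hs0pos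
  have hs13 : s1 % 3 ≠ 0 := by
    intro h0
    have := (Nat.Prime.dvd_mul Nat.prime_three).1 (Nat.dvd_of_mod_eq_zero h0)
    rcases this with h1 | h1
    · have := Nat.Prime.dvd_of_dvd_pow Nat.prime_three h1
      omega
    · omega
  have hgs1 : g s1 ↔ g s := (dbl_pow hg hs0pos e).trans hgs0.symm
  have hs1pos : 0 < s1 := by omega
  set t0 := 2 * 3 ^ q + 4 * N + 1 with ht0
  refine ⟨s1 * 2 ^ t0, fun L hL => ?_⟩
  have hKr : (0:ℝ) < K := by exact_mod_cast hK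
  have hK1 : (1:ℝ) ≤ K := by exact_mod_cast hK
  have hs1r : (0:ℝ) < s1 := by exact_mod_cast hs1pos
  have hLr : (s1:ℝ) * 2 ^ t0 ≤ L := by exact_mod_cast hL
  have hfac : (0:ℝ) < 1 - 1 / (4 * K) := by
    rw [sub_pos, div_lt_one (by positivity)]
    linarith
  set Y : ℝ := L / (s1 * (1 - 1 / (4 * K))) with hY
  have hYlow : (2:ℝ) ^ t0 ≤ Y := by
    rw [hY, le_div_iff₀ (by positivity)]
    calc (2:ℝ) ^ t0 * (s1 * (1 - 1 / (4 * K))) ≤ 2 ^ t0 * (s1 * 1) := by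
          gcongr
          have : (0:ℝ) < 1 / (4 * K) := by positivity
          linarith
      _ ≤ L := by linarith
  have hY1 : 1 ≤ Y := le_trans (one_le_pow₀ (by norm_num)) hYlow
  obtain ⟨o, t, ho1, hoN, h1, h2⟩ := hN Y hY1
  have h3o : (0:ℝ) < 3 ^ o := by positivity
  have htt0 : t0 ≤ t := by
    by_contra hcon
    push Not at hcon
    have h5 : (2:ℝ) ^ t < 2 ^ t0 := pow_lt_pow_right₀ (by norm_num) hcon
    have h6 : (2:ℝ) ^ t / 3 ^ o ≤ 2 ^ t := div_le_self (by positivity) (one_le_pow₀ (by norm_num))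
    linarith
  obtain ⟨o', rfl⟩ : ∃ o', o = o' + 1 := ⟨o - 1, by omega⟩
  obtain ⟨x, hx, hR⟩ := steer q 1 o' t s1 (by omega) hs13
  have hxpos : 0 < x := by
    have h4 := hR.lt
    have h5 : 2 ^ t * 3 ^ (o' + 1) < 2 ^ t * s1 := by
      apply Nat.mul_lt_mul_of_pos_left _ (by positivity)
      have h6 : 3 ^ (o' + 1) ≤ 3 ^ N := Nat.pow_le_pow_right (by norm_num) hoN
      have h7 : 0 < 3 ^ N := by positivity
      nlinarith
    have h6 : 3 ^ (o' + 1) * 2 ^ t < 3 ^ (o' + 1) * (x + 2 ^ t) := by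
      calc 3 ^ (o' + 1) * 2 ^ t = 2 ^ t * 3 ^ (o' + 1) := by ring
        _ < 2 ^ t * s1 := h5
        _ ≤ _ := (Nat.le_add_right _ _).trans h4
    have := Nat.lt_of_mul_lt_mul_left h6
    omega
  refine ⟨x, ?_, ?_, hx, (hR.inv hg hxpos).trans hgs1⟩
  · -- L ≤ x
    have h4 : (2:ℝ) ^ t * s1 ≤ 3 ^ (o' + 1) * (x + 2 ^ t) := by
      exact_mod_cast (Nat.le_add_right _ _).trans hR.lt
    -- x ≥ 2^t/3^o * s1 - 2^t
    set r : ℝ := 2 ^ t / 3 ^ (o' + 1) with hr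
    have h5 : (2:ℝ) ^ t = r * 3 ^ (o' + 1) := by rw [hr]; field_simp
    have hrpos : 0 < r := by positivity
    have h6 : r * s1 ≤ x + 2 ^ t := by
      have : (3:ℝ) ^ (o' + 1) * (r * s1) ≤ 3 ^ (o' + 1) * (x + 2 ^ t) := by
        calc (3:ℝ) ^ (o' + 1) * (r * s1) = (r * 3 ^ (o' + 1)) * s1 := by ring
          _ ≤ _ := by rw [← h5]; exact h4
      exact le_of_mul_le_mul_left this h3o
    have h7 : (2:ℝ) ^ t ≤ r * (s1 * (1 / (4 * K))) := by
      rw [h5]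
      apply mul_le_mul_of_nonneg_left _ hrpos.le
      have h8 : (3:ℝ) ^ (o' + 1) ≤ 3 ^ N := pow_le_pow_right₀ (by norm_num) hoN
      have h9 : (4:ℝ) * K * 3 ^ N ≤ s1 := by exact_mod_cast hs1big
      rw [mul_one_div, le_div_iff₀ (by positivity)]
      nlinarith
    have h10 : (L:ℝ) ≤ r * (s1 * (1 - 1 / (4 * K))) := by
      have h11 := h1
      rw [hY, div_le_iff₀ (by positivity)] at h11
      exact h11
    have h12 : (L:ℝ) ≤ x := by
      have : r * (s1 * (1 - 1 / (4 * K))) = r * s1 - r * (s1 * (1 / (4 * K))) := by ring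
      linarith
    exact_mod_cast h12
  · have h4 : (3:ℝ) ^ (o' + 1) * x ≤ 2 ^ t * s1 := by exact_mod_cast hR.le
    have h5 : (x:ℝ) ≤ 2 ^ t / 3 ^ (o' + 1) * s1 := by
      rw [div_mul_eq_mul_div, le_div_iff₀ h3o]
      linarith
    have h6 : (x:ℝ) < (1 + 1 / (2 * K)) * Y * s1 := by
      refine lt_of_le_of_lt h5 (mul_lt_mul_of_pos_right ?_ hs1r)
      have := h2
      push_cast at this
      exact this
    have h7 : (K:ℝ) * ((1 + 1 / (2 * K)) * Y * s1) ≤ (K + 1) * L := by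
      rw [hY]
      have e1 : (K:ℝ) * ((1 + 1 / (2 * K)) * (L / (s1 * (1 - 1 / (4 * K)))) * s1) =
          (K + 1 / 2) * L / (1 - 1 / (4 * K)) := by
        field_simp
      rw [e1, div_le_iff₀ hfac]
      have hL0 : (0:ℝ) ≤ L := Nat.cast_nonneg L
      have e2 : (K:ℝ) + 1 / 2 ≤ (K + 1) * (1 - 1 / (4 * K)) := by
        have : ((K:ℝ) + 1) * (1 - 1 / (4 * K)) = K + 1 - 1 / 4 - 1 / (4 * K) := by
          field_simp
          ring
        rw [this]
        have h8 : 1 / (4 * (K:ℝ)) ≤ 1 / 4 := by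
          apply one_div_le_one_div_of_le (by norm_num)
          linarith
        linarith
      calc ((K:ℝ) + 1 / 2) * L ≤ ((K + 1) * (1 - 1 / (4 * K))) * L :=
            mul_le_mul_of_nonneg_right e2 hL0
        _ = _ := by ring
    have h8 : (K:ℝ) * x < (K + 1) * L := lt_of_lt_of_le (mul_lt_mul_of_pos_left h6 hKr) h7
    exact_mod_cast h8

/-- if there are arbitrarily large windows with a fixed period `3 ^ q` then all is constant -/
theorem const_of_windows (hg : Inv g) {q K : ℕ} (hq : 0 < q) (hK : 0 < K)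
    (h : ∀ X : ℕ, ∃ L, X ≤ L ∧ ∀ y, L ≤ y → K * y < (K + 1) * L → y % 3 ≠ 0 →
      (g y ↔ g (y + 3 ^ q))) (s s' : ℕ) (hs : 0 < s) (hs' : 0 < s') : g s ↔ g s' := by
  obtain ⟨X1, hX1⟩ := hit hg q K hK hs
  obtain ⟨X2, hX2⟩ := hit hg q K hK hs'
  obtain ⟨L, hL, hper⟩ := h (max X1 X2)
  obtain ⟨x, hx1, hx2, hx3, hx4⟩ := hX1 L (le_trans (le_max_left _ _) hL)
  obtain ⟨x', hx1', hx2', hx3', hx4'⟩ := hX2 L (le_trans (le_max_right _ _) hL)
  have h3 : 3 ∣ 3 ^ q := dvd_pow_self 3 (by omega)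
  have key : ∀ x x', L ≤ x → x ≤ x' → K * x' < (K + 1) * L → x ≡ 1 [MOD 3 ^ q] →
      x' ≡ 1 [MOD 3 ^ q] → (g x ↔ g x') := by
    intro x x' hx1 hxx hx2' hx3 hx3'
    obtain ⟨v, hv⟩ := (Nat.modEq_iff_dvd' hxx).1 (hx3.trans hx3'.symm)
    have hx' : x' = x + v * 3 ^ q := by rw [mul_comm v]; omega
    rw [hx'] at hx2' ⊢
    apply iter_period h3 hper v x hx1 hx2'
    have h4 := Nat.ModEq.of_dvd h3 hx3
    rw [Nat.ModEq] at h4
    omega
  rw [← hx4, ← hx4']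
  rcases le_total x x' with h5 | h5
  · exact key x x' hx1 h5 hx2' hx3 hx3'
  · exact (key x' x hx1' h5 hx2 hx3' hx3).symm

end Pool.Agent.W_e21d3a_h6
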