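import Pool.Agent.W_e21d3a_h6.Steer

set_option autoImplicit false

/-!
# From a small local period to a power of three
-/

namespace Pool.Agent.W_e21d3a_h6

/-- the theorem of Fine and Wilf, for a function on the interval `[L, U)` -/
theorem fine_wilf {α : Type*} (f : ℕ → α) (L U : ℕ) : ∀ n p q : ℕ, p + q ≤ n → 0 < p → 0 < q →
    L + p + q ≤ U → (∀ y, L ≤ y → y + p < U → f y = f (y + p)) →
    (∀ y, L ≤ y → y + q < U → f y = f (y + q)) →
    ∀ y, L ≤ y → y + Nat.gcd p q < U → f y = f (y + Nat.gcd p q) := by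
  intro n
  induction n with
  | zero => intro p q h hp hq; omega
  | succ n ih =>
    -- the step from `p > q`
    have key : ∀ p q : ℕ, p + q ≤ n + 1 → 0 < q → q < p →
        L + p + q ≤ U → (∀ y, L ≤ y → y + p < U → f y = f (y + p)) →
        (∀ y, L ≤ y → y + q < U → f y = f (y + q)) →
        ∀ y, L ≤ y → y + Nat.gcd p q < U → f y = f (y + Nat.gcd p q) := by
      intro p q h hq hqp hU h1 h2
      obtain ⟨d, rfl⟩ : ∃ d, p = d + q := ⟨p - q, by omega⟩
      have h3 : ∀ y, L ≤ y → y + d < U → f y = f (y + d) := by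
        intro y hy hyU
        rcases Nat.lt_or_ge (y + (d + q)) U with h4 | h4
        · rw [h1 y hy h4, h2 (y + d) (by omega) (by omega)]
          congr 1; ring
        · have h5 : L ≤ y - q := by omega
          have h6 := h1 (y - q) h5 (by omega)
          have h7 := h2 (y - q) h5 (by omega)
          rw [show y - q + q = y by omega] at h7
          rw [show y - q + (d + q) = y + d by omega] at h6
          rw [← h7, h6]
      have h8 := ih d q (by omega) (by omega) hq (by omega) h3 h2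
      rwa [show Nat.gcd (d + q) q = Nat.gcd d q by simp]
    intro p q h hp hq hU h1 h2
    rcases lt_trichotomy p q with h3 | h3 | h3
    · have := key q p (by omega) hp h3 (by omega) h2 h1
      rwa [Nat.gcd_comm] at this
    · subst h3
      rwa [Nat.gcd_self]
    · exact key p q h hq h3 hU h1 h2

variable {g : ℕ → Prop}

/-- `m` steps of a local period -/
theorem iter_period {K L p : ℕ} (h3p : 3 ∣ p)
    (hper : ∀ y, L ≤ y → K * y < (K + 1) * L → y % 3 ≠ 0 → (g y ↔ g (y + p))) :
    ∀ m x : ℕ, L ≤ x → K * (x + m * p) < (K + 1) * L → x % 3 ≠ 0 → (g x ↔ g (x + m * p)) := by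
  intro m
  induction m with
  | zero => intro x _ _ _; simp
  | succ m ih =>
    intro x hx hK hx3
    have h1 : K * (x + m * p) ≤ K * (x + (m + 1) * p) :=
      Nat.mul_le_mul_left _ (by nlinarith)
    refine (ih x hx (by omega) hx3).trans ?_
    have h2 := hper (x + m * p) (by omega) (by omega) (by
      obtain ⟨c, rfl⟩ := h3p
      rw [show x + m * (3 * c) = x + 3 * (m * c) by ring]
      omega)
    rw [h2]
    rw [show x + m * p + p = x + (m + 1) * p by ring]

/-- the main reduction: an odd local period which is small with respect to the window can be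
replaced by a fixed power of 3, on a smaller window -/
theorem kill (hg : Inv g) : ∃ o T : ℕ, 0 < o ∧ 0 < T ∧ ∀ K : ℕ, 0 < K → ∃ E : ℕ, ∀ p L : ℕ, p % 2 = 1 →
    3 ∣ p → E * p ≤ L →
    (∀ y, L ≤ y → K * y < (K + 1) * L → y % 3 ≠ 0 → (g y ↔ g (y + p))) →
    ∃ L', L ≤ T * L' ∧ ∀ y, L' ≤ y → 2 * K * y < (2 * K + 1) * L' → y % 3 ≠ 0 →
      (g y ↔ g (y + 3 ^ o)) := by
  obtain ⟨q, c, z0, hadm⟩ := adm 1
  have hZ := hadm (q + 1) (c + 4 * (q + 1)) (by omega) le_rfl
  set Z := 3 ^ (q + 1) * z0 with hZdef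
  set o := q + 1 with ho
  set τ := c + 4 * (q + 1) with hτ
  have hτ1 : 1 ≤ τ := by omega
  set T := 2 ^ τ with hT
  set a := 3 ^ o with ha
  have hTpos : 0 < T := by positivity
  have hapos : 0 < a := by positivity
  have hT2 : 1 < T := Nat.one_lt_two_pow (by omega)
  refine ⟨o, T, by omega, hTpos, fun K hK => ⟨T * (12 * K + Z), fun p L hp2 h3p hE hper => ?_⟩⟩
  have hp3 : 3 ≤ p := Nat.le_of_dvd (by omega) h3p
  -- l = L / T
  set l := L / T with hl
  have hlT : T * l ≤ L := Nat.mul_div_le L T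
  have hlT' : L < T * (l + 1) := by
    have := Nat.lt_mul_div_succ L hTpos
    simpa [hl] using this
  have hl1 : (12 * K + Z) * p ≤ l := by
    rw [hl]
    apply (Nat.le_div_iff_mul_le hTpos).2
    calc (12 * K + Z) * p * T = T * (12 * K + Z) * p := by ring
      _ ≤ L := hE
  have hl2 : 12 * (K * p) ≤ l := by nlinarith
  have hlZ : Z ≤ l := by nlinarith
  -- h
  obtain ⟨h, hh1, hh2⟩ : ∃ h, K * (h + p) ≤ l ∧ l < K * (h + p + 1) := by
    have h1 : p ≤ l / K := by
      apply (Nat.le_div_iff_mul_le hK).2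
      nlinarith
    refine ⟨l / K - p, ?_, ?_⟩
    · rw [Nat.sub_add_cancel h1]; exact Nat.mul_div_le l K
    · rw [Nat.sub_add_cancel h1]
      have := Nat.lt_mul_div_succ l hK
      simpa using this
  have hhbig : 10 * p ≤ h := by
    -- 12 K p ≤ l < K (h + p + 1)
    have h1 : K * (12 * p) < K * (h + p + 1) := by
      calc K * (12 * p) = 12 * (K * p) := by ring
        _ ≤ l := hl2
        _ < _ := hh2
    have h2 := Nat.lt_of_mul_lt_mul_left h1
    omega
  -- the two relations
  have hwin : ∀ z, a * (l + 2) ≤ z → z < a * (l + h) → z % 3 ≠ 0 →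
      ∃ x, x % 3 ≠ 0 ∧ R τ o x z ∧ R τ o (x + 1) z ∧ L ≤ x ∧ K * (x + T * p) < (K + 1) * L := by
    intro z hz1 hz2 hz3
    obtain ⟨x, hx3, hR1, hR2⟩ := hZ z (by nlinarith) hz3
    refine ⟨x, hx3, hR1, hR2, ?_, ?_⟩
    · have h1 := hR1.lt
      -- T z + a ≤ a (x + T)
      have h2 : T * (a * (l + 2)) ≤ T * z := Nat.mul_le_mul_left _ hz1
      have h3 : a * (T * (l + 2)) ≤ a * (x + T) := by
        calc a * (T * (l + 2)) = T * (a * (l + 2)) := by ring
          _ ≤ _ := h2.trans ((Nat.le_add_right _ _).trans h1)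
      have h4 := Nat.le_of_mul_le_mul_left h3 hapos
      nlinarith
    · have h1 := hR1.le
      -- a x ≤ T z < T a (l + h)
      have h2 : a * x < a * (T * (l + h)) := by
        calc a * x ≤ T * z := h1
          _ < T * (a * (l + h)) := Nat.mul_lt_mul_of_pos_left hz2 hTpos
          _ = _ := by ring
      have h3 := Nat.lt_of_mul_lt_mul_left h2
      calc K * (x + T * p) < K * (T * (l + h) + T * p) := Nat.mul_lt_mul_of_pos_left (by omega) hK
        _ = T * (K * l) + T * (K * (h + p)) := by ring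
        _ ≤ T * (K * l) + T * l := by
            have := Nat.mul_le_mul_left T hh1
            omega
        _ = (K + 1) * (T * l) := by ring
        _ ≤ _ := Nat.mul_le_mul_left _ hlT
  have hx0 : ∀ x : ℕ, x % 3 ≠ 0 → 0 < x := by intro x hx; omega
  -- first period 3^o p
  have hP0 : ∀ z, a * (l + 2) ≤ z → z < a * (l + h) → z % 3 ≠ 0 → (g z ↔ g (z + a * p)) := by
    intro z hz1 hz2 hz3
    obtain ⟨x, hx3, hR1, hR2, hx1, hx2⟩ := hwin z hz1 hz2 hz3
    have h1 := iter_period h3p hper T x hx1 hx2 hx3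
    have h2 := hR1.add p
    exact ((hR1.inv hg (hx0 x hx3)).symm.trans h1).trans (h2.inv hg (by have := hx0 x hx3; omega))
  -- second period 3^o Q
  obtain ⟨m, hmT, hm⟩ := Nat.exists_mul_mod_eq_one_of_coprime (k := T) (n := p)
    (Nat.Coprime.pow_right _ (Nat.coprime_two_right.2 (Nat.odd_iff.2 hp2))) hT2
  set Q := p * m / T with hQ
  have hQm : p * m = T * Q + 1 := by
    have := Nat.div_add_mod (p * m) T
    rw [hm] at this
    exact this.symm
  have hQp : Q < p := by
    by_contra hcon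
    have h1 : T * p ≤ T * Q := Nat.mul_le_mul_left _ (by omega)
    have h2 : p * m < p * T := Nat.mul_lt_mul_of_pos_left hmT (by omega)
    nlinarith
  have hQ0 : 0 < Q := by
    rcases Nat.eq_zero_or_pos Q with h0 | h0
    · rw [h0] at hQm
      have h1 : p ∣ 1 := ⟨m, by omega⟩
      have := Nat.le_of_dvd (by norm_num) h1
      omega
    · exact h0
  have hP1 : ∀ z, a * (l + 2) ≤ z → z < a * (l + h) → z % 3 ≠ 0 → (g z ↔ g (z + a * Q)) := by
    intro z hz1 hz2 hz3
    obtain ⟨x, hx3, hR1, hR2, hx1, hx2⟩ := hwin z hz1 hz2 hz3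
    have h0 : K * (x + m * p) < (K + 1) * L := by
      refine lt_of_le_of_lt (Nat.mul_le_mul_left _ ?_) hx2
      have : m * p ≤ T * p := Nat.mul_le_mul_right _ hmT.le
      omega
    have h1 := iter_period h3p hper m x hx1 h0 hx3
    have h2 := hR2.add Q
    rw [show x + 1 + 2 ^ τ * Q = x + m * p by rw [mul_comm m p, hQm]; ring] at h2
    exact ((hR1.inv hg (hx0 x hx3)).symm.trans h1).trans (h2.inv hg (by have := hx0 x hx3; omega))
  -- Fine-Wilf
  have h3a : 3 ∣ a := dvd_pow_self 3 (by omega)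
  set f : ℕ → Prop := fun y => y % 3 ≠ 0 ∧ g y with hf
  have hfper : ∀ u, 3 ∣ u → (∀ z, a * (l + 2) ≤ z → z < a * (l + h) → z % 3 ≠ 0 → (g z ↔ g (z + u))) →
      ∀ y, a * (l + 2) ≤ y → y + u < a * (l + h) → f y = f (y + u) := by
    intro u hu hz y hy1 hy2
    apply propext
    have h1 : (y + u) % 3 = y % 3 := by omega
    constructor
    · rintro ⟨h2, h3⟩
      exact ⟨by rw [h1]; exact h2, (hz y hy1 (by omega) h2).1 h3⟩
    · rintro ⟨h2, h3⟩
      rw [h1] at h2
      exact ⟨h2, (hz y hy1 (by omega) h2).2 h3⟩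
  have hgcd : Nat.gcd (a * p) (a * Q) = a := by
    rw [Nat.gcd_mul_left]
    have : Nat.gcd p Q = 1 := by
      have h1 : Nat.gcd p Q ∣ 1 := by
        have h2 : Nat.gcd p Q ∣ p * m := Dvd.dvd.mul_right (Nat.gcd_dvd_left p Q) m
        have h3 : Nat.gcd p Q ∣ T * Q := Dvd.dvd.mul_left (Nat.gcd_dvd_right p Q) T
        rw [hQm] at h2
        exact (Nat.dvd_add_right h3).1 h2
      exact Nat.dvd_one.1 h1
    rw [this, mul_one]
  have hFW := fine_wilf f (a * (l + 2)) (a * (l + h)) (a * p + a * Q) (a * p) (a * Q) le_rfl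
    (Nat.mul_pos hapos (by omega)) (Nat.mul_pos hapos hQ0) (by
      calc a * (l + 2) + a * p + a * Q = a * (l + 2 + p + Q) := by ring
        _ ≤ a * (l + h) := Nat.mul_le_mul_left _ (by omega))
    (hfper _ (Dvd.dvd.mul_right h3a p) hP0) (hfper _ (Dvd.dvd.mul_right h3a Q) hP1)
  rw [hgcd] at hFW
  refine ⟨a * (l + 2), ?_, ?_⟩
  · calc L ≤ T * (l + 1) := hlT'.le
      _ ≤ T * (a * (l + 2)) := Nat.mul_le_mul_left _ (by nlinarith)
  · intro y hy1 hy2 hy3
    have hyU : y + a < a * (l + h) := by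
      -- 2K y < (2K+1) a (l+2) ; (l + 2) ≤ 2K (h - 3)
      have h1 : l + 2 ≤ 2 * K * (h - 3) := by
        obtain ⟨h', rfl⟩ : ∃ h', h = h' + 3 := ⟨h - 3, by omega⟩
        simp only [Nat.add_sub_cancel]
        have h2 : K * (h' + 3 + p + 1) + 2 ≤ 2 * K * h' := by
          have h3 : 10 * p ≤ h' + 3 := hhbig
          have h4 : h' + 3 + p + 1 + 2 ≤ 2 * h' := by omega
          calc K * (h' + 3 + p + 1) + 2 ≤ K * (h' + 3 + p + 1) + K * 2 := by nlinarith
            _ = K * (h' + 3 + p + 1 + 2) := by ring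
            _ ≤ K * (2 * h') := Nat.mul_le_mul_left _ h4
            _ = _ := by ring
        omega
      have h5 : 2 * K * (y + a) < 2 * K * (a * (l + h)) := by
        obtain ⟨h', rfl⟩ : ∃ h', h = h' + 3 := ⟨h - 3, by omega⟩
        simp only [Nat.add_sub_cancel] at h1
        calc 2 * K * (y + a) = 2 * K * y + 2 * K * a := by ring
          _ < (2 * K + 1) * (a * (l + 2)) + 2 * K * a := by omega
          _ = a * (2 * K * (l + 3)) + a * (l + 2) := by ring
          _ ≤ a * (2 * K * (l + 3)) + a * (2 * K * h') := by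
              have := Nat.mul_le_mul_left a h1
              omega
          _ = _ := by ring
      exact Nat.lt_of_mul_lt_mul_left h5
    have h6 := hFW y hy1 hyU
    have h7 : f y ↔ f (y + a) := by rw [h6]
    have h8 : (y + a) % 3 = y % 3 := by omega
    constructor
    · intro h9; exact (h7.1 ⟨hy3, h9⟩).2
    · intro h9; exact (h7.2 ⟨by rw [h8]; exact hy3, h9⟩).2

end Pool.Agent.W_e21d3a_h6
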