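import Pool.Agent.W_e21d3a_h6.Hit

set_option autoImplicit false

/-!
# Prefix rigidity of Collatz-invariant predicates
-/

namespace Pool.Agent.W_e21d3a_h6

variable {g : ℕ → Prop}

/-- small local periods with bounded power of 2 in arbitrarily large windows: `g` is constant -/
theorem final (hg : Inv g) {K : ℕ} (hK : 0 < K) : ∃ E : ℕ, ∀ A : ℕ,
    (∀ X : ℕ, ∃ p L, X ≤ L ∧ (∃ a p', a ≤ A ∧ p = 2 ^ a * p' ∧ p' % 2 = 1) ∧ 3 ∣ p ∧ E * p ≤ L ∧
      ∀ y, L ≤ y → K * y < (K + 1) * L → y % 3 ≠ 0 → (g y ↔ g (y + p))) →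
    ∀ s s', 0 < s → 0 < s' → (g s ↔ g s') := by
  obtain ⟨o, T, ho, hT, hkill⟩ := kill hg
  obtain ⟨E, hE⟩ := hkill (2 * K) (by omega)
  refine ⟨E, fun A h s s' hs hs' => ?_⟩
  refine const_of_windows hg ho (K := 2 * (2 * K)) (by omega) (fun X => ?_) s s' hs hs'
  obtain ⟨p, L, hL, ⟨a, p', haA, rfl, hp'⟩, h3, hEL, hper⟩ := h (2 ^ A * (T * X) + (2 * K + 1) * 2 ^ A)
  have haA' : 2 ^ a ≤ 2 ^ A := Nat.pow_le_pow_right (by norm_num) haA
  have h2a : 0 < 2 ^ a := by positivity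
  -- L1 = ceil (L / 2^a)
  set L1 := (L + 2 ^ a - 1) / 2 ^ a with hL1
  have hL1a : L ≤ 2 ^ a * L1 := by
    have h1 := Nat.lt_mul_div_succ (L + 2 ^ a - 1) h2a
    rw [← hL1, mul_add, mul_one] at h1
    omega
  have hL1b : 2 ^ a * L1 ≤ L + 2 ^ a := by
    have h1 := Nat.mul_div_le (L + 2 ^ a - 1) (2 ^ a)
    rw [← hL1] at h1
    omega
  have h3' : 3 ∣ p' := by
    have h1 := (Nat.Prime.dvd_mul Nat.prime_three).1 h3
    rcases h1 with h1 | h1
    · have := Nat.Prime.dvd_of_dvd_pow Nat.prime_three h1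
      omega
    · exact h1
  obtain ⟨L', hL', hres⟩ := hE p' L1 hp' h3' (by
      have h1 : 2 ^ a * (E * p') ≤ 2 ^ a * L1 := by
        calc 2 ^ a * (E * p') = E * (2 ^ a * p') := by ring
          _ ≤ L := hEL
          _ ≤ _ := hL1a
      exact Nat.le_of_mul_le_mul_left h1 h2a) (by
    intro y hy1 hy2 hy3
    have h4 : (2 ^ a * y) % 3 ≠ 0 := by
      intro h0
      have := (Nat.Prime.dvd_mul Nat.prime_three).1 (Nat.dvd_of_mod_eq_zero h0)
      rcases this with h1 | h1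
      · have := Nat.Prime.dvd_of_dvd_pow Nat.prime_three h1
        omega
      · omega
    have h5 : L ≤ 2 ^ a * y := hL1a.trans (Nat.mul_le_mul_left _ hy1)
    have h6 : K * (2 ^ a * y) < (K + 1) * L := by
      have h7 : 2 ^ a * (2 * K * y) < 2 ^ a * ((2 * K + 1) * L1) := Nat.mul_lt_mul_of_pos_left hy2 h2a
      have h8 : (2 * K + 1) * (2 ^ a * L1) ≤ (2 * K + 1) * (L + 2 ^ a) := Nat.mul_le_mul_left _ hL1b
      have h9 : (2 * K + 1) * 2 ^ a ≤ (2 * K + 1) * 2 ^ A := Nat.mul_le_mul_left _ haA'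
      have h10 : (2 * K + 1) * 2 ^ a ≤ L := by omega
      have e1 : 2 ^ a * (2 * K * y) = 2 * (K * (2 ^ a * y)) := by ring
      have e2 : 2 ^ a * ((2 * K + 1) * L1) = (2 * K + 1) * (2 ^ a * L1) := by ring
      have e3 : (2 * K + 1) * (L + 2 ^ a) = (2 * K + 1) * L + (2 * K + 1) * 2 ^ a := by ring
      have e4 : 2 * ((K + 1) * L) = (2 * K + 1) * L + L := by ring
      omega
    have h11 := hper (2 ^ a * y) h5 h6 h4
    rw [dbl_pow hg (by omega), ← mul_add, dbl_pow hg (by omega)] at h11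
    exact h11)
  refine ⟨L', ?_, fun y hy1 hy2 hy3 => hres y hy1 hy2 hy3⟩
  -- X ≤ L'
  by_contra hcon
  push Not at hcon
  have h12 : T * L' + T ≤ T * X := by
    calc T * L' + T = T * (L' + 1) := by ring
      _ ≤ _ := Nat.mul_le_mul_left _ hcon
  have h13 : 2 ^ a * L1 ≤ 2 ^ A * (T * L') := Nat.mul_le_mul haA' hL'
  have h14 : 2 ^ A * (T * L' + T) ≤ 2 ^ A * (T * X) := Nat.mul_le_mul_left _ h12
  have h15 : 0 < 2 ^ A * T := by positivity
  have e5 : 2 ^ A * (T * L' + T) = 2 ^ A * (T * L') + 2 ^ A * T := by ring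
  omega

/-- transport of a relation between `g x` and `g (x + A)` -/
theorem transport (hg : Inv g) {φ : Prop → Prop} {C o τ Z : ℕ} (hadm : Adm C o τ Z)
    {Q L U z : ℕ} (hz : Z ≤ z) (hz3 : z % 3 ≠ 0)
    (h : ∀ x, L < x → x < U → (g (x + (C + 2 ^ τ * Q)) ↔ φ (g x)))
    (h1 : 3 ^ o * (L + 2 ^ τ) ≤ 2 ^ τ * z) (h2 : 2 ^ τ * z < 3 ^ o * U) :
    g (z + 3 ^ o * Q) ↔ φ (g z) := by
  obtain ⟨x, hx3, hR1, hR2⟩ := hadm z hz hz3
  have h3 : L < x := by
    have h4 := hR1.lt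
    have h5 : 0 < 3 ^ o := by positivity
    have h6 : 3 ^ o * (L + 2 ^ τ) < 3 ^ o * (x + 2 ^ τ) := by omega
    have := Nat.lt_of_mul_lt_mul_left h6
    omega
  have h4 : x < U := Nat.lt_of_mul_lt_mul_left (lt_of_le_of_lt hR1.le h2)
  have h5 := h x h3 h4
  have h6 := hR2.add Q
  have h7 : g (x + (C + 2 ^ τ * Q)) ↔ g (z + 3 ^ o * Q) := by
    rw [show x + (C + 2 ^ τ * Q) = x + C + 2 ^ τ * Q by ring]
    exact h6.inv hg (by omega)
  have h8 : g x = g z := propext (hR1.inv hg (by omega))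
  rw [h8] at h5
  exact h7.symm.trans h5

/-- base 2 -/
theorem rigid_two (hg : Inv g) {φ : Prop → Prop} {n n' : ℕ} (hn : n < n')
    (H : ∀ i r, 0 < r → r < 2 ^ i → (g (2 ^ i * n' + r) ↔ φ (g (2 ^ i * n + r)))) :
    ∀ s s', 0 < s → 0 < s' → (g s ↔ g s') := by
  obtain ⟨d, rfl⟩ : ∃ d, n' = n + d := ⟨n' - n, by omega⟩
  have hd : 0 < d := by omega
  have H' : ∀ i x, 2 ^ i * n < x → x < 2 ^ i * (n + 1) → (g (x + 2 ^ i * d) ↔ φ (g x)) := by
    intro i x h1 h2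
    have := H i (x - 2 ^ i * n) (by omega) (by rw [mul_add] at h2; omega)
    rw [show 2 ^ i * (n + d) + (x - 2 ^ i * n) = x + 2 ^ i * d by rw [mul_add]; omega,
      show 2 ^ i * n + (x - 2 ^ i * n) = x by omega] at this
    exact this
  obtain ⟨q0, c, z0, hadm0⟩ := adm 0
  obtain ⟨q, hq⟩ : ∃ q, q = q0 + 1 := ⟨_, rfl⟩
  have hadm : ∀ o τ, q ≤ o → c + 4 * o ≤ τ → Adm 0 o τ (3 ^ o * z0) :=
    fun o τ h1 h2 => hadm0 o τ (by omega) h2
  have h3q : 3 ∣ 3 ^ q := dvd_pow_self 3 (by omega)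
  set K := 2 * (n + d) + 1 with hKdef
  obtain ⟨E, hE⟩ := final hg (K := K) (by omega)
  obtain ⟨v, d', hd', hdd⟩ := Nat.exists_eq_two_pow_mul_odd (n := d) (by omega)
  -- g0 : 4 (z0 + 1) ≤ 2 ^ g0
  obtain ⟨g0, hg0⟩ : ∃ g0, 4 * (z0 + 1) ≤ 2 ^ g0 := ⟨4 * (z0 + 1), Nat.lt_two_pow_self.le⟩
  apply hE (v + g0)
  intro X
  set C := 4 * (n + 1) + E + X with hC
  obtain ⟨c1, e1, hce1, hce2⟩ := dens C (by omega)
  have he1 : 1 ≤ e1 := by
    rcases Nat.eq_zero_or_pos e1 with h0 | h0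
    · subst h0
      rw [pow_zero] at hce1 hce2
      rw [mul_one] at hce2
      have hc1 : 1 ≤ c1 := by
        rcases Nat.eq_zero_or_pos c1 with h1 | h1
        · subst h1; norm_num at hce1
        · exact h1
      have h3 : 3 ^ 1 ≤ 3 ^ c1 := Nat.pow_le_pow_right (by norm_num) hc1
      have h4 : C * 3 ≤ C * 3 ^ c1 := Nat.mul_le_mul_left _ (by simpa using h3)
      omega
    · exact h0
  -- D = 3^c1 - 2^e1
  obtain ⟨D, hD⟩ : ∃ D, 3 ^ c1 = 2 ^ e1 + D := ⟨3 ^ c1 - 2 ^ e1, by omega⟩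
  have hD0 : 0 < D := by omega
  have hDodd : D % 2 = 1 := by
    have h3 : (3 ^ c1) % 2 = 1 := by
      rw [Nat.pow_mod]; norm_num
    have h2 : (2 ^ e1) % 2 = 0 := by
      obtain ⟨e, rfl⟩ : ∃ e, e1 = e + 1 := ⟨e1 - 1, by omega⟩
      rw [pow_succ]; omega
    omega
  have hCD : C * D ≤ 2 ^ e1 := by
    rw [hD] at hce2
    nlinarith
  -- the scales
  set P := 3 ^ q * 2 ^ g0 with hP
  have hPpos : 0 < P := by positivity
  have hPbig : 4 * (3 ^ q * (z0 + 1)) ≤ P := by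
    rw [hP]
    calc 4 * (3 ^ q * (z0 + 1)) = 3 ^ q * (4 * (z0 + 1)) := by ring
      _ ≤ _ := Nat.mul_le_mul_left _ hg0
  -- M = P 2^e1, M' = P 3^c1 ; base window
  set M := P * 2 ^ e1 with hM
  set M' := P * 3 ^ c1 with hM'
  have hMM' : M' = M + P * D := by rw [hM', hM, hD]; ring
  set B := 3 ^ (q + c1) * (2 ^ g0 * n + (z0 + 1)) with hB
  have hB4 : 4 * B ≤ 4 * (M' * n) + M' := by
    have h1 : 4 * (3 ^ (q + c1) * (z0 + 1)) ≤ M' := by
      rw [hM', hP, pow_add]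
      calc 4 * (3 ^ q * 3 ^ c1 * (z0 + 1)) = 3 ^ c1 * (3 ^ q * (4 * (z0 + 1))) := by ring
        _ ≤ 3 ^ c1 * (3 ^ q * 2 ^ g0) := Nat.mul_le_mul_left _ (Nat.mul_le_mul_left _ hg0)
        _ = _ := by ring
    have h2 : 4 * B = 4 * (M' * n) + 4 * (3 ^ (q + c1) * (z0 + 1)) := by
      rw [hB, hM', hP, pow_add]; ring
    omega
  -- two relations on [B, M (n+1))
  have hrel1 : ∀ z, B ≤ z → z < M * (n + 1) → z % 3 ≠ 0 → (g (z + M * d) ↔ φ (g z)) := by
    intro z hz1 hz2 hz3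
    have hz0 : 3 ^ q * z0 ≤ z := by
      refine le_trans ?_ hz1
      rw [hB]
      apply Nat.mul_le_mul (Nat.pow_le_pow_right (by norm_num) (by omega))
      omega
    have h1 := transport hg (φ := φ) (hadm q (c + 4 * q) le_rfl le_rfl)
      (Q := 2 ^ (e1 + g0) * d) (L := 2 ^ (e1 + g0 + (c + 4 * q)) * n)
      (U := 2 ^ (e1 + g0 + (c + 4 * q)) * (n + 1)) hz0 hz3 (by
        intro x hx1 hx2
        have := H' (e1 + g0 + (c + 4 * q)) x hx1 hx2
        rw [show x + 2 ^ (e1 + g0 + (c + 4 * q)) * d =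
          x + (0 + 2 ^ (c + 4 * q) * (2 ^ (e1 + g0) * d)) by rw [pow_add _ (e1 + g0)]; ring] at this
        exact this) (by
        have h2 : 3 ^ q * (2 ^ (e1 + g0) * n + 1) ≤ z := by
          refine le_trans ?_ hz1
          rw [hB]
          calc 3 ^ q * (2 ^ (e1 + g0) * n + 1) ≤ 3 ^ q * (3 ^ c1 * (2 ^ g0 * n + (z0 + 1))) := by
                apply Nat.mul_le_mul_left
                have h3 : 2 ^ e1 * (2 ^ g0 * n) ≤ 3 ^ c1 * (2 ^ g0 * n) :=
                  Nat.mul_le_mul_right _ hce1.le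
                have h4 : 1 ≤ 3 ^ c1 := Nat.one_le_pow _ _ (by norm_num)
                rw [pow_add]
                nlinarith
            _ = _ := by rw [pow_add]; ring
        calc 3 ^ q * (2 ^ (e1 + g0 + (c + 4 * q)) * n + 2 ^ (c + 4 * q))
            = 2 ^ (c + 4 * q) * (3 ^ q * (2 ^ (e1 + g0) * n + 1)) := by
              rw [pow_add _ (e1 + g0)]; ring
          _ ≤ _ := Nat.mul_le_mul_left _ h2) (by
        calc 2 ^ (c + 4 * q) * z < 2 ^ (c + 4 * q) * (M * (n + 1)) :=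
              Nat.mul_lt_mul_of_pos_left hz2 (by positivity)
          _ = _ := by rw [hM, hP, pow_add _ (e1 + g0), pow_add _ e1]; ring)
    rw [show z + 3 ^ q * (2 ^ (e1 + g0) * d) = z + M * d by rw [hM, hP, pow_add]; ring] at h1
    exact h1
  have hrel2 : ∀ z, B ≤ z → z < M * (n + 1) → z % 3 ≠ 0 → (g (z + M' * d) ↔ φ (g z)) := by
    intro z hz1 hz2 hz3
    have hz0 : 3 ^ (q + c1) * z0 ≤ z := by
      refine le_trans ?_ hz1
      rw [hB]
      apply Nat.mul_le_mul_left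
      omega
    set τ := c + 4 * (q + c1) with hτ
    have h1 := transport hg (φ := φ) (hadm (q + c1) τ (by omega) le_rfl)
      (Q := 2 ^ g0 * d) (L := 2 ^ (g0 + τ) * n)
      (U := 2 ^ (g0 + τ) * (n + 1)) hz0 hz3 (by
        intro x hx1 hx2
        have := H' (g0 + τ) x hx1 hx2
        rw [show x + 2 ^ (g0 + τ) * d = x + (0 + 2 ^ τ * (2 ^ g0 * d)) by rw [pow_add]; ring] at this
        exact this) (by
        calc 3 ^ (q + c1) * (2 ^ (g0 + τ) * n + 2 ^ τ)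
            = 2 ^ τ * (3 ^ (q + c1) * (2 ^ g0 * n + 1)) := by
              rw [pow_add 2 g0 τ]; ring
          _ ≤ 2 ^ τ * B := by
              apply Nat.mul_le_mul_left
              rw [hB]
              apply Nat.mul_le_mul_left
              omega
          _ ≤ _ := Nat.mul_le_mul_left _ hz1) (by
        calc 2 ^ τ * z < 2 ^ τ * (M * (n + 1)) :=
              Nat.mul_lt_mul_of_pos_left hz2 (by positivity)
          _ ≤ 2 ^ τ * (M' * (n + 1)) := by
              apply Nat.mul_le_mul_left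
              apply Nat.mul_le_mul_right
              rw [hMM']; omega
          _ = _ := by rw [hM', hP, pow_add 2 g0 τ, pow_add 3 q]; ring)
    rw [show z + 3 ^ (q + c1) * (2 ^ g0 * d) = z + M' * d by rw [hM', hP, pow_add]; ring] at h1
    exact h1
  refine ⟨P * D * d, B + M * d, ?_, ?_, ?_, ?_, ?_⟩
  · -- X ≤ L
    have h1 : C ≤ C * D := Nat.le_mul_of_pos_right _ hD0
    have h2 : 2 ^ e1 ≤ M * d := by
      rw [hM]
      calc 2 ^ e1 ≤ P * 2 ^ e1 := Nat.le_mul_of_pos_left _ hPpos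
        _ ≤ _ := Nat.le_mul_of_pos_right _ hd
    omega
  · refine ⟨g0 + v, 3 ^ q * D * d', by omega, ?_, ?_⟩
    · rw [hP, hdd, pow_add]; ring
    · have h1 : (3 ^ q) % 2 = 1 := by rw [Nat.pow_mod]; norm_num
      have h2 : d' % 2 = 1 := Nat.odd_iff.1 hd'
      rw [Nat.mul_mod, Nat.mul_mod (3 ^ q), h1, h2, hDodd]
  · rw [hP]
    exact (((h3q.mul_right _).mul_right _).mul_right _)
  · -- E p ≤ L
    have h1 : E * (P * D * d) ≤ M * d := by
      have h2 : E * D ≤ 2 ^ e1 := (Nat.mul_le_mul_right D (by omega)).trans hCD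
      calc E * (P * D * d) = P * (E * D) * d := by ring
        _ ≤ P * 2 ^ e1 * d := Nat.mul_le_mul_right _ (Nat.mul_le_mul_left _ h2)
        _ = _ := by rw [hM]
    omega
  · intro y hy1 hy2 hy3
    have hyM : y < M * (n + 1) + M * d := by
      -- (K + 1) L ≤ K M (n + d + 1)
      have h1 : 2 * B ≤ 2 * (M * n) + M := by
        -- 4 B ≤ M' (4 n + 1) = M (4n+1) + P D (4 n + 1) and 4 (n+1) D ≤ 2^e1
        have h2 : P * D * (4 * n + 1) ≤ M := by
          have h3 : (4 * (n + 1)) * D ≤ 2 ^ e1 := (Nat.mul_le_mul_right D (by omega)).trans hCD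
          calc P * D * (4 * n + 1) = P * ((4 * n + 1) * D) := by ring
            _ ≤ P * ((4 * (n + 1)) * D) := Nat.mul_le_mul_left _ (Nat.mul_le_mul_right _ (by omega))
            _ ≤ P * 2 ^ e1 := Nat.mul_le_mul_left _ h3
        have h4 : 4 * (M' * n) + M' = 4 * (M * n) + M + P * D * (4 * n + 1) := by
          rw [hMM']; ring
        omega
      have h5 : (K + 1) * (B + M * d) ≤ K * (M * (n + 1) + M * d) := by
        rw [hKdef]
        have h6 : (2 * (n + d) + 1 + 1) * (B + M * d) = (n + d + 1) * (2 * B + 2 * (M * d)) := by ring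
        have h7 : (n + d + 1) * (2 * B + 2 * (M * d)) ≤
            (n + d + 1) * (2 * (M * n) + M + 2 * (M * d)) := Nat.mul_le_mul_left _ (by omega)
        have h8 : (n + d + 1) * (2 * (M * n) + M + 2 * (M * d)) =
            (2 * (n + d) + 1) * (M * (n + 1) + M * d) := by ring
        rw [h6, ← h8]
        exact h7
      exact Nat.lt_of_mul_lt_mul_left (lt_of_lt_of_le hy2 h5)
    obtain ⟨z, rfl⟩ : ∃ z, y = z + M * d := ⟨y - M * d, by omega⟩
    have h3M : 3 ∣ M * d := by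
      rw [hM, hP]
      exact (((h3q.mul_right _).mul_right _).mul_right _)
    have hz3 : z % 3 ≠ 0 := by omega
    have h1 := hrel1 z (by omega) (by omega) hz3
    have h2 := hrel2 z (by omega) (by omega) hz3
    rw [show z + M * d + P * D * d = z + M' * d by rw [hMM']; ring]
    exact h1.trans h2.symm

/-- odd bases -/
theorem rigid_odd (hg : Inv g) {φ : Prop → Prop} {k : ℕ} (hk : 2 ≤ k) (hkodd : Odd k) {n n' : ℕ}
    (hn : n < n')
    (H : ∀ i r, 0 < r → r < k ^ i → (g (k ^ i * n' + r) ↔ φ (g (k ^ i * n + r)))) :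
    ∀ s s', 0 < s → 0 < s' → (g s ↔ g s') := by
  obtain ⟨d, rfl⟩ : ∃ d, n' = n + d := ⟨n' - n, by omega⟩
  have hd : 0 < d := by omega
  have H' : ∀ i x, k ^ i * n < x → x < k ^ i * (n + 1) → (g (x + k ^ i * d) ↔ φ (g x)) := by
    intro i x h1 h2
    have := H i (x - k ^ i * n) (by omega) (by rw [mul_add] at h2; omega)
    rw [show k ^ i * (n + d) + (x - k ^ i * n) = x + k ^ i * d by rw [mul_add]; omega,
      show k ^ i * n + (x - k ^ i * n) = x by omega] at this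
    exact this
  obtain ⟨q0, c, z0, hadm0⟩ := adm d
  obtain ⟨q, hq⟩ : ∃ q, q = q0 + 1 := ⟨_, rfl⟩
  have hadm : ∀ o τ, q ≤ o → c + 4 * o ≤ τ → Adm d o τ (3 ^ o * z0) :=
    fun o τ h1 h2 => hadm0 o τ (by omega) h2
  have h3q : 3 ∣ 3 ^ q := dvd_pow_self 3 (by omega)
  set K := 2 * (n + d) + 1 with hKdef
  obtain ⟨E, hE⟩ := final hg (K := K) (by omega)
  set C := 4 * (n + 1) + E with hC
  obtain ⟨c1, e1, hce1, hce2⟩ := dens C (by omega)
  have he1 : 1 ≤ e1 := by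
    rcases Nat.eq_zero_or_pos e1 with h0 | h0
    · subst h0
      rw [pow_zero] at hce1 hce2
      rw [mul_one] at hce2
      have hc1 : 1 ≤ c1 := by
        rcases Nat.eq_zero_or_pos c1 with h1 | h1
        · subst h1; norm_num at hce1
        · exact h1
      have h3 : 3 ^ 1 ≤ 3 ^ c1 := Nat.pow_le_pow_right (by norm_num) hc1
      have h4 : C * 3 ≤ C * 3 ^ c1 := Nat.mul_le_mul_left _ (by simpa using h3)
      omega
    · exact h0
  obtain ⟨D, hD⟩ : ∃ D, 3 ^ c1 = 2 ^ e1 + D := ⟨3 ^ c1 - 2 ^ e1, by omega⟩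
  have hD0 : 0 < D := by omega
  have hDodd : D % 2 = 1 := by
    have h3 : (3 ^ c1) % 2 = 1 := by
      rw [Nat.pow_mod]; norm_num
    have h2 : (2 ^ e1) % 2 = 0 := by
      obtain ⟨e, rfl⟩ : ∃ e, e1 = e + 1 := ⟨e1 - 1, by omega⟩
      rw [pow_succ]; omega
    omega
  have hCD : C * D ≤ 2 ^ e1 := by
    rw [hD] at hce2
    nlinarith
  -- times
  set τ := c + 4 * (q + c1) with hτ
  set τ' := τ + e1 with hτ'
  -- `k ^ i0 = 1 + 2 ^ τ' B1`
  obtain ⟨i0, hi0, B1, hB1⟩ : ∃ i0, 0 < i0 ∧ ∃ B1, k ^ i0 = 1 + 2 ^ τ' * B1 := by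
    refine ⟨Nat.totient (2 ^ τ'), Nat.totient_pos.2 (by positivity), ?_⟩
    have hcop : Nat.Coprime k (2 ^ τ') :=
      Nat.Coprime.pow_right _ (Nat.coprime_two_right.2 hkodd)
    have h1 := Nat.ModEq.pow_totient hcop
    have h2 : 1 ≤ k ^ Nat.totient (2 ^ τ') := Nat.one_le_pow _ _ (by omega)
    obtain ⟨B1, hB1⟩ := (Nat.modEq_iff_dvd' h2).1 h1.symm
    exact ⟨B1, by omega⟩
  have hB1pos : 0 < B1 := by
    rcases Nat.eq_zero_or_pos B1 with h0 | h0
    · rw [h0] at hB1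
      have : 2 ^ 1 ≤ k ^ i0 := (Nat.pow_le_pow_left hk 1).trans (Nat.pow_le_pow_right (by omega) hi0)
      omega
    · exact h0
  obtain ⟨v, B0, hB0, hBB⟩ := Nat.exists_eq_two_pow_mul_odd (n := d * B1) (by positivity)
  apply hE v
  intro X
  -- odd geometric sums
  have hS : ∀ m, ∃ S, S % 2 = 1 ∧ m ≤ S ∧ k ^ (i0 * (2 * m + 1)) = 1 + 2 ^ τ' * (B1 * S) := by
    intro m
    induction m with
    | zero => exact ⟨1, rfl, by omega, by simpa using hB1⟩
    | succ m ih =>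
      obtain ⟨S, hS1, hS2, hS3⟩ := ih
      set y := k ^ i0 with hy
      have hyodd : y % 2 = 1 := by
        have : Odd y := hkodd.pow
        exact Nat.odd_iff.1 this
      have e1 : k ^ (i0 * (2 * (m + 1) + 1)) = k ^ (i0 * (2 * m + 1)) * (y * y) := by
        rw [hy, ← pow_add, ← pow_add]; congr 1; ring
      refine ⟨S * (y * y) + (y + 1), ?_, ?_, ?_⟩
      · have h1 : (y * y) % 2 = 1 := by rw [Nat.mul_mod, hyodd]
        have h2 : (S * (y * y)) % 2 = 1 := by rw [Nat.mul_mod, hS1, h1]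
        omega
      · have h1 : 1 ≤ y * y := by
          have : 1 ≤ y := by omega
          nlinarith
        have h2 : S ≤ S * (y * y) := Nat.le_mul_of_pos_right _ h1
        omega
      · rw [e1, hS3]
        have h1 : y * y = 1 + 2 ^ τ' * (B1 * (y + 1)) := by
          calc y * y = (1 + 2 ^ τ' * B1) * y := by rw [← hB1]
            _ = y + 2 ^ τ' * B1 * y := by ring
            _ = (1 + 2 ^ τ' * B1) + 2 ^ τ' * B1 * y := by rw [← hB1]
            _ = _ := by ring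
        calc (1 + 2 ^ τ' * (B1 * S)) * (y * y) = y * y + 2 ^ τ' * (B1 * (S * (y * y))) := by ring
          _ = (1 + 2 ^ τ' * (B1 * (y + 1))) + 2 ^ τ' * (B1 * (S * (y * y))) := by
              rw [← h1]
          _ = _ := by ring
  -- the scale
  set R0 := 3 ^ (q + c1) * (z0 + 1) with hR0
  obtain ⟨m, hm⟩ : ∃ m, m = X + (4 * (2 ^ τ * (R0 + 1)) + 4 * K * (3 ^ q * d)) := ⟨_, rfl⟩
  obtain ⟨S, hS1, hS2, hS3⟩ := hS m
  set i := i0 * (2 * m + 1) with hi
  set W := k ^ i with hW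
  set B := d * B1 * S with hB
  have hWB : W * d = d + 2 ^ τ' * B := by rw [hS3, hB]; ring
  have hWB2 : W * d = d + 2 ^ τ * (2 ^ e1 * B) := by rw [hWB, hτ', pow_add]; ring
  have hWm : m ≤ W := by
    rw [hS3]
    have h1 : S ≤ 2 ^ τ' * (B1 * S) := by
      calc S ≤ B1 * S := Nat.le_mul_of_pos_left _ hB1pos
        _ ≤ _ := Nat.le_mul_of_pos_left _ (by positivity)
    omega
  have hBpos : m ≤ B := by
    rw [hB]
    calc m ≤ S := hS2
      _ ≤ d * B1 * S := Nat.le_mul_of_pos_left _ (by positivity)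
  -- two relations
  have hrel1 : ∀ z, 3 ^ q * z0 ≤ z → 3 ^ q * (W * n + 2 ^ τ) ≤ 2 ^ τ * z → 2 ^ τ * z < 3 ^ q * (W * (n + 1)) →
      z % 3 ≠ 0 → (g (z + 3 ^ q * (2 ^ e1 * B)) ↔ φ (g z)) := by
    intro z hz0 hz1 hz2 hz3
    refine transport hg (φ := φ) (hadm q τ le_rfl (by omega)) hz0 hz3 ?_ hz1 hz2
    intro x hx1 hx2
    rw [← hWB2]
    exact H' i x hx1 hx2
  have hrel2 : ∀ z, 3 ^ (q + c1) * z0 ≤ z → 3 ^ (q + c1) * (W * n + 2 ^ τ') ≤ 2 ^ τ' * z →
      2 ^ τ' * z < 3 ^ (q + c1) * (W * (n + 1)) →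
      z % 3 ≠ 0 → (g (z + 3 ^ (q + c1) * B) ↔ φ (g z)) := by
    intro z hz0 hz1 hz2 hz3
    refine transport hg (φ := φ) (hadm (q + c1) τ' (by omega) (by omega)) hz0 hz3 ?_ hz1 hz2
    intro x hx1 hx2
    rw [← hWB]
    exact H' i x hx1 hx2
  -- the window
  set u := 3 ^ q * (2 ^ e1 * B) with hu
  set G := 3 ^ (q + c1) * (W * n) / 2 ^ τ' with hG
  have h2τ : 0 < 2 ^ τ := by positivity
  have h2τ' : 0 < 2 ^ τ' := by positivity
  have h2e : 0 < 2 ^ e1 := by positivity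
  have hG1 : 3 ^ (q + c1) * (W * n) < 2 ^ τ' * (G + 1) := by
    have h1 := Nat.lt_mul_div_succ (3 ^ (q + c1) * (W * n)) h2τ'
    simpa [hG] using h1
  have hG2 : 2 ^ τ' * G ≤ 3 ^ (q + c1) * (W * n) := Nat.mul_div_le _ _
  obtain ⟨F, hF⟩ : ∃ F, F = G + R0 + 1 := ⟨_, rfl⟩
  have hR0' : 3 ^ (q + c1) ≤ R0 := by
    rw [hR0]; exact Nat.le_mul_of_pos_right _ (by omega)
  have h3qc : 3 ^ (q + c1) = 3 ^ q * 3 ^ c1 := pow_add _ _ _
  have h2τe : 2 ^ τ' = 2 ^ e1 * 2 ^ τ := by rw [hτ', pow_add]; ring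
  have hF1 : ∀ z, F ≤ z → 3 ^ (q + c1) * (W * n + 2 ^ τ') ≤ 2 ^ τ' * z := by
    intro z hz
    calc 3 ^ (q + c1) * (W * n + 2 ^ τ') = 3 ^ (q + c1) * (W * n) + 2 ^ τ' * 3 ^ (q + c1) := by ring
      _ ≤ 2 ^ τ' * (G + 1) + 2 ^ τ' * R0 := Nat.add_le_add hG1.le (Nat.mul_le_mul_left _ hR0')
      _ = 2 ^ τ' * F := by rw [hF]; ring
      _ ≤ _ := Nat.mul_le_mul_left _ hz
  have hF1' : ∀ z, F ≤ z → 3 ^ q * (W * n + 2 ^ τ) ≤ 2 ^ τ * z := by
    intro z hz
    have h1 : 2 ^ e1 * (3 ^ q * (W * n + 2 ^ τ)) ≤ 2 ^ e1 * (2 ^ τ * z) := by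
      calc 2 ^ e1 * (3 ^ q * (W * n + 2 ^ τ)) = 3 ^ q * (2 ^ e1 * (W * n) + 2 ^ e1 * 2 ^ τ) := by ring
        _ ≤ 3 ^ q * (3 ^ c1 * (W * n) + 3 ^ c1 * 2 ^ τ') := by
            apply Nat.mul_le_mul_left
            apply Nat.add_le_add (Nat.mul_le_mul_right _ hce1.le)
            rw [← h2τe]
            exact Nat.le_mul_of_pos_left _ (by positivity)
        _ = 3 ^ (q + c1) * (W * n + 2 ^ τ') := by rw [h3qc]; ring
        _ ≤ 2 ^ τ' * z := hF1 z hz
        _ = _ := by rw [h2τe]; ring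
    exact Nat.le_of_mul_le_mul_left h1 h2e
  have hF2 : 4 * (2 ^ τ * F) ≤ 3 ^ q * W * (4 * n + 1) + 4 * (2 ^ τ * (R0 + 1)) := by
    have h1 : 2 ^ τ' * F ≤ 3 ^ (q + c1) * (W * n) + 2 ^ τ' * (R0 + 1) := by
      have : 2 ^ τ' * F = 2 ^ τ' * G + 2 ^ τ' * (R0 + 1) := by rw [hF]; ring
      omega
    have h2 : 4 * D * n ≤ 2 ^ e1 := by
      have h3 : (4 * (n + 1)) * D ≤ 2 ^ e1 := (Nat.mul_le_mul_right D (by omega)).trans hCD
      nlinarith
    have h4 : 2 ^ e1 * (4 * (2 ^ τ * F)) ≤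
        2 ^ e1 * (3 ^ q * W * (4 * n + 1) + 4 * (2 ^ τ * (R0 + 1))) := by
      calc 2 ^ e1 * (4 * (2 ^ τ * F)) = 4 * (2 ^ τ' * F) := by rw [h2τe]; ring
        _ ≤ 4 * (3 ^ (q + c1) * (W * n) + 2 ^ τ' * (R0 + 1)) := Nat.mul_le_mul_left _ h1
        _ = 2 ^ e1 * (3 ^ q * W * (4 * n)) + 3 ^ q * W * (4 * D * n) + 2 ^ e1 * (4 * (2 ^ τ * (R0 + 1))) := by
            rw [h3qc, hD, h2τe]; ring
        _ ≤ 2 ^ e1 * (3 ^ q * W * (4 * n)) + 3 ^ q * W * 2 ^ e1 + 2 ^ e1 * (4 * (2 ^ τ * (R0 + 1))) := by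
            have := Nat.mul_le_mul_left (3 ^ q * W) h2
            omega
        _ = _ := by ring
    exact Nat.le_of_mul_le_mul_left h4 h2e
  have hu2 : 2 ^ τ * u + 3 ^ q * d = 3 ^ q * W * d := by
    have h1 : 3 ^ q * (W * d) = 3 ^ q * (d + 2 ^ τ * (2 ^ e1 * B)) := by rw [hWB2]
    rw [hu]
    calc 2 ^ τ * (3 ^ q * (2 ^ e1 * B)) + 3 ^ q * d = 3 ^ q * (d + 2 ^ τ * (2 ^ e1 * B)) := by ring
      _ = _ := by rw [← h1]; ring
  have hu' : 3 ^ (q + c1) * B = u + 3 ^ q * D * B := by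
    rw [hu, h3qc, hD]; ring
  have h3u : 3 ∣ u := h3q.mul_right _
  have huB : B ≤ u := by
    rw [hu]
    calc B ≤ 2 ^ e1 * B := Nat.le_mul_of_pos_left _ h2e
      _ ≤ _ := Nat.le_mul_of_pos_left _ (by positivity)
  refine ⟨3 ^ q * D * B, F + u, ?_, ?_, ?_, ?_, ?_⟩
  · omega
  · refine ⟨v, 3 ^ q * D * (B0 * S), le_rfl, ?_, ?_⟩
    · rw [hB, hBB]; ring
    · have h1 : (3 ^ q) % 2 = 1 := by rw [Nat.pow_mod]; norm_num
      have h2 : B0 % 2 = 1 := Nat.odd_iff.1 hB0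
      rw [Nat.mul_mod, Nat.mul_mod (3 ^ q), Nat.mul_mod B0, h1, h2, hDodd, hS1]
  · exact (h3q.mul_right _).mul_right _
  · have h2 : E * D ≤ 2 ^ e1 := (Nat.mul_le_mul_right D (by omega)).trans hCD
    have h1 : E * (3 ^ q * D * B) ≤ u := by
      calc E * (3 ^ q * D * B) = 3 ^ q * (E * D * B) := by ring
        _ ≤ 3 ^ q * (2 ^ e1 * B) := Nat.mul_le_mul_left _ (Nat.mul_le_mul_right _ h2)
        _ = _ := by rw [hu]
    omega
  · intro y hy1 hy2 hy3
    have hyM : 2 ^ τ * y < 3 ^ q * (W * (n + 1)) + 2 ^ τ * u := by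
      have h5 : (K + 1) * (4 * (2 ^ τ * (F + u))) ≤ K * (4 * (3 ^ q * (W * (n + 1)) + 2 ^ τ * u)) := by
        have h6 : 4 * (2 ^ τ * (F + u)) + 4 * (3 ^ q * d) ≤
            3 ^ q * W * (4 * (n + d) + 1) + 4 * (2 ^ τ * (R0 + 1)) := by
          have e1 : 4 * (2 ^ τ * (F + u)) + 4 * (3 ^ q * d) =
            4 * (2 ^ τ * F) + 4 * (2 ^ τ * u + 3 ^ q * d) := by ring
          rw [e1, hu2]
          have e2 : 3 ^ q * W * (4 * (n + d) + 1) = 3 ^ q * W * (4 * n + 1) + 4 * (3 ^ q * W * d) := by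
            ring
          omega
        have h7 : K * (4 * (3 ^ q * (W * (n + 1)) + 2 ^ τ * u)) + 4 * K * (3 ^ q * d) =
            K * (4 * (3 ^ q * W * (n + d + 1))) := by
          have e3 : K * (4 * (3 ^ q * (W * (n + 1)) + 2 ^ τ * u)) + 4 * K * (3 ^ q * d) =
            K * (4 * (3 ^ q * W * (n + 1) + (2 ^ τ * u + 3 ^ q * d))) := by ring
          rw [e3, hu2]; ring
        have h8 : (K + 1) * (3 ^ q * W * (4 * (n + d) + 1) + 4 * (2 ^ τ * (R0 + 1))) + 4 * K * (3 ^ q * d) ≤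
            K * (4 * (3 ^ q * W * (n + d + 1))) := by
          -- difference of the coefficients of `3^q W` is `2 (n + d) + 2`
          have h9 : 4 * (2 ^ τ * (R0 + 1)) + 4 * K * (3 ^ q * d) ≤ 3 ^ q * W := by
            have h10 : W ≤ 3 ^ q * W := Nat.le_mul_of_pos_left _ (by positivity)
            omega
          have h11 : (K + 1) * (4 * (2 ^ τ * (R0 + 1)) + 4 * K * (3 ^ q * d)) ≤ (K + 1) * (3 ^ q * W) :=
            Nat.mul_le_mul_left _ h9
          have h12 : 4 * K * (3 ^ q * d) ≤ (K + 1) * (4 * K * (3 ^ q * d)) :=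
            Nat.le_mul_of_pos_left _ (by omega)
          have e4 : (K + 1) * (3 ^ q * W * (4 * (n + d) + 1) + 4 * (2 ^ τ * (R0 + 1))) =
            (K + 1) * (3 ^ q * W * (4 * (n + d) + 1)) + (K + 1) * (4 * (2 ^ τ * (R0 + 1))) := by ring
          have e5 : (K + 1) * (4 * (2 ^ τ * (R0 + 1)) + 4 * K * (3 ^ q * d)) =
            (K + 1) * (4 * (2 ^ τ * (R0 + 1))) + (K + 1) * (4 * K * (3 ^ q * d)) := by ring
          have e6 : K * (4 * (3 ^ q * W * (n + d + 1))) =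
            (K + 1) * (3 ^ q * W * (4 * (n + d) + 1)) + (K + 1) * (3 ^ q * W) := by
            rw [hKdef]; ring
          omega
        have h13 : (K + 1) * (4 * (2 ^ τ * (F + u))) ≤
            (K + 1) * (3 ^ q * W * (4 * (n + d) + 1) + 4 * (2 ^ τ * (R0 + 1))) :=
          Nat.mul_le_mul_left _ (by omega)
        omega
      have h14 : K * (4 * (2 ^ τ * y)) < K * (4 * (3 ^ q * (W * (n + 1)) + 2 ^ τ * u)) := by
        calc K * (4 * (2 ^ τ * y)) = 4 * 2 ^ τ * (K * y) := by ring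
          _ < 4 * 2 ^ τ * ((K + 1) * (F + u)) := Nat.mul_lt_mul_of_pos_left hy2 (by positivity)
          _ = (K + 1) * (4 * (2 ^ τ * (F + u))) := by ring
          _ ≤ _ := h5
      have h15 := Nat.lt_of_mul_lt_mul_left h14
      omega
    obtain ⟨z, rfl⟩ : ∃ z, y = z + u := ⟨y - u, by omega⟩
    have hz3 : z % 3 ≠ 0 := by omega
    have hzF : F ≤ z := by omega
    have hzU : 2 ^ τ * z < 3 ^ q * (W * (n + 1)) := by
      rw [mul_add] at hyM; omega
    have hz0 : 3 ^ (q + c1) * z0 ≤ z := by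
      have h1 : 3 ^ (q + c1) * z0 ≤ R0 := by rw [hR0]; exact Nat.mul_le_mul_left _ (by omega)
      have h2 : R0 ≤ F := by rw [hF]; exact Nat.le_succ_of_le (Nat.le_add_left R0 G)
      exact h1.trans (h2.trans hzF)
    have hz0' : 3 ^ q * z0 ≤ z :=
      (Nat.mul_le_mul_right _ (Nat.pow_le_pow_right (by norm_num) (by omega))).trans hz0
    have h1 := hrel1 z hz0' (hF1' z hzF) hzU hz3
    have h2 := hrel2 z hz0 (hF1 z hzF) (by
      calc 2 ^ τ' * z = 2 ^ e1 * (2 ^ τ * z) := by rw [h2τe]; ring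
        _ < 2 ^ e1 * (3 ^ q * (W * (n + 1))) := Nat.mul_lt_mul_of_pos_left hzU h2e
        _ ≤ 3 ^ c1 * (3 ^ q * (W * (n + 1))) := Nat.mul_le_mul_right _ hce1.le
        _ = _ := by rw [h3qc]; ring) hz3
    rw [hu'] at h2
    rw [show z + u + 3 ^ q * D * B = z + (u + 3 ^ q * D * B) by ring]
    exact h1.trans h2.symm

/-- general bases, `n < n'` -/
theorem rigid_lt (hg : Inv g) {φ : Prop → Prop} {k : ℕ} (hk : 2 ≤ k) {n n' : ℕ} (hn : n < n')
    (H : ∀ i r, 0 < r → r < k ^ i → (g (k ^ i * n' + r) ↔ φ (g (k ^ i * n + r)))) :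
    ∀ s s', 0 < s → 0 < s' → (g s ↔ g s') := by
  obtain ⟨e, k', hk', hkk⟩ := Nat.exists_eq_two_pow_mul_odd (n := k) (by omega)
  have hφ : ∀ {a b : ℕ} (c : Prop), (c ↔ φ (g a)) → (g a ↔ g b) → (c ↔ φ (g b)) := by
    intro a b c h1 h2
    rw [propext h2] at h1
    exact h1
  rcases Nat.lt_or_ge k' 2 with h1 | h1
  · -- k = 2 ^ e
    have hk1 : k' = 1 := by
      have : k' % 2 = 1 := Nat.odd_iff.1 hk'
      omega
    subst hk1
    rw [mul_one] at hkk
    have he : 1 ≤ e := by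
      rcases Nat.eq_zero_or_pos e with h0 | h0
      · subst h0; norm_num at hkk; omega
      · exact h0
    apply rigid_two hg (φ := φ) hn
    intro i r hr hri
    have hle : i ≤ e * i := Nat.le_mul_of_pos_left _ he
    obtain ⟨t, ht⟩ : ∃ t, e * i = i + t := ⟨e * i - i, by omega⟩
    have h2 : k ^ i = 2 ^ t * 2 ^ i := by rw [hkk, ← pow_mul, ht, pow_add]; ring
    have h3 := H i (2 ^ t * r) (by positivity) (by
      rw [h2]; exact Nat.mul_lt_mul_of_pos_left hri (by positivity))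
    rw [h2, show 2 ^ t * 2 ^ i * n' + 2 ^ t * r = 2 ^ t * (2 ^ i * n' + r) by ring,
      show 2 ^ t * 2 ^ i * n + 2 ^ t * r = 2 ^ t * (2 ^ i * n + r) by ring,
      dbl_pow hg (by omega)] at h3
    exact hφ _ h3 (dbl_pow hg (by omega) t)
  · apply rigid_odd hg (φ := φ) h1 hk' hn
    intro i r hr hri
    have h2 : k ^ i = 2 ^ (e * i) * k' ^ i := by rw [hkk, mul_pow, ← pow_mul]
    have h3 := H i (2 ^ (e * i) * r) (by positivity) (by
      rw [h2]; exact Nat.mul_lt_mul_of_pos_left hri (by positivity))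
    rw [h2, show 2 ^ (e * i) * k' ^ i * n' + 2 ^ (e * i) * r = 2 ^ (e * i) * (k' ^ i * n' + r) by ring,
      show 2 ^ (e * i) * k' ^ i * n + 2 ^ (e * i) * r = 2 ^ (e * i) * (k' ^ i * n + r) by ring,
      dbl_pow hg (by omega)] at h3
    exact hφ _ h3 (dbl_pow hg (by omega) _)

/-- **Prefix rigidity.** In every base: if the membership of `n'w` is a function of the membership
of `nw`, for all words `w` not consisting of zeros, `n ≠ n'` two fixed numbers, then `g` is constant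
on the positive integers. -/
theorem rigid (hg : Inv g) (φ : Prop → Prop) {k : ℕ} (hk : 2 ≤ k) {n n' : ℕ} (hn : n ≠ n')
    (H : ∀ i r, 0 < r → r < k ^ i → (g (k ^ i * n' + r) ↔ φ (g (k ^ i * n + r)))) :
    ∀ s s', 0 < s → 0 < s' → (g s ↔ g s') := by
  rcases lt_or_gt_of_ne hn with h | h
  · exact rigid_lt hg hk h H
  · by_cases hφ : φ True ↔ φ False
    · -- φ is constant
      have hc : ∀ P, φ P ↔ φ True := by
        intro P
        by_cases hP : P
        · rw [eq_true hP]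
        · rw [eq_false hP]; exact hφ.symm
      have H' : ∀ i r, 0 < r → r < k ^ i → (g (k ^ i * n' + r) ↔ φ True) :=
        fun i r h1 h2 => (H i r h1 h2).trans (hc _)
      rcases Nat.eq_zero_or_pos n' with h0 | h0
      · subst h0
        have key : ∀ s, 0 < s → (g s ↔ φ True) := by
          intro s hs
          have := H' s s hs (Nat.lt_pow_self (by omega))
          simpa using this
        intro s s' hs hs'
        exact (key s hs).trans (key s' hs').symm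
      · exact rigid_lt hg (φ := fun _ => φ True) hk (n := 0) h0
          (fun i r h1 h2 => H' i r h1 h2)
    · -- φ is an involution
      have hinv : ∀ P Q : Prop, (P ↔ φ Q) → (Q ↔ φ P) := by
        intro P Q hPQ
        by_cases hQ : Q
        · rw [eq_true hQ] at hPQ ⊢
          by_cases hP : P
          · rw [eq_true hP] at hPQ ⊢; exact hPQ
          · rw [eq_false hP] at hPQ ⊢
            simp only [true_iff]
            by_contra h3
            apply hφ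
            exact ⟨fun h4 => absurd (hPQ.2 h4) (by simp), fun h4 => absurd h4 h3⟩
        · rw [eq_false hQ] at hPQ ⊢
          by_cases hP : P
          · rw [eq_true hP] at hPQ ⊢
            simp only [false_iff]
            intro h3
            apply hφ
            exact ⟨fun _ => hPQ.1 trivial, fun _ => h3⟩
          · rw [eq_false hP] at hPQ ⊢; exact hPQ
      exact rigid_lt hg (φ := φ) hk h (fun i r h1 h2 => hinv _ _ (H i r h1 h2))

end Pool.Agent.W_e21d3a_h6
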