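import Pool.Agent.W_e21d3a_h6.Words

set_option autoImplicit false

/-!
# Deterministic pushdown automata
-/

namespace Pool.Agent.W_e21d3a_h6

/-- A deterministic pushdown automaton with input alphabet `α`, states `σ` and stack alphabet `Γ`.
In the state `q` with `X` on the top of the stack the automaton either makes a move without reading
(`δ q X = Sum.inl (q', β)`), or it reads the next letter `a` (`δ q X = Sum.inr f`) and makes the
move `f a`; it is stuck if `f a = none`.  The move `(q', β)` replaces the state by `q'` and the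
symbol `X` by the word `β` (its first letter becomes the top of the stack). -/
structure DPDA (α σ Γ : Type) where
  /-- initial state -/
  start : σ
  /-- initial stack symbol -/
  bottom : Γ
  /-- transition function -/
  δ : σ → Γ → (σ × List Γ) ⊕ (α → Option (σ × List Γ))
  /-- accepting states -/
  accept : Set σ

namespace DPDA

variable {α σ Γ : Type} (M : DPDA α σ Γ)

/-- computations: `Run q γ w q' γ'` says that there is a sequence of moves which leads from the
state `q` and the stack `γ` to the state `q'` and the stack `γ'` and reads exactly `w`.  There is no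
move if the stack is empty. -/
inductive Run : σ → List Γ → List α → σ → List Γ → Prop
  | refl (q : σ) (γ : List Γ) : Run q γ [] q γ
  | eps {q : σ} {X : Γ} {γ : List Γ} {q' : σ} {β : List Γ} {w : List α} {q'' : σ} {γ'' : List Γ} :
      M.δ q X = Sum.inl (q', β) → Run q' (β ++ γ) w q'' γ'' → Run q (X :: γ) w q'' γ''
  | read {q : σ} {X : Γ} {γ : List Γ} {f : α → Option (σ × List Γ)} {a : α} {q' : σ} {β : List Γ}
      {w : List α} {q'' : σ} {γ'' : List Γ} :
      M.δ q X = Sum.inr f → f a = some (q', β) → Run q' (β ++ γ) w q'' γ'' →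
      Run q (X :: γ) (a :: w) q'' γ''

/-- the accepted words: some computation from the initial configuration reads the word and ends
in an accepting state -/
def language : Set (List α) :=
  {w | ∃ q γ, M.Run M.start [M.bottom] w q γ ∧ q ∈ M.accept}

variable {M}

theorem Run.trans {q q' : σ} {γ γ' : List Γ} {u : List α} (h : M.Run q γ u q' γ') :
    ∀ {w : List α} {q'' : σ} {γ'' : List Γ}, M.Run q' γ' w q'' γ'' → M.Run q γ (u ++ w) q'' γ'' := by
  induction h with
  | refl q γ => intro w q'' γ'' h'; simpa using h'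
  | eps h1 _ ih => intro w q'' γ'' h'; exact Run.eps h1 (ih h')
  | read h1 h2 _ ih => intro w q'' γ'' h'; exact Run.read h1 h2 (ih h')

theorem Run.stack {q q' : σ} {γ γ' : List Γ} {u : List α} (h : M.Run q γ u q' γ') (ε : List Γ) :
    M.Run q (γ ++ ε) u q' (γ' ++ ε) := by
  induction h with
  | refl q γ => exact Run.refl q _
  | eps h1 _ ih =>
    rw [List.append_assoc] at ih
    exact Run.eps h1 ih
  | read h1 h2 _ ih =>
    rw [List.append_assoc] at ih
    exact Run.read h1 h2 ih

/-- determinism -/
theorem Run.det {q q' : σ} {γ γ' : List Γ} {u : List α} (h : M.Run q γ u q' γ') :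
    ∀ {w : List α} {q'' : σ} {γ'' : List Γ}, w ≠ [] → M.Run q γ (u ++ w) q'' γ'' →
      M.Run q' γ' w q'' γ'' := by
  induction h with
  | refl q γ => intro w q'' γ'' _ h'; simpa using h'
  | @eps q X γ q1 β u q' γ' h1 _ ih =>
    intro w q'' γ'' hw h'
    apply ih hw
    generalize hv : u ++ w = v at h'
    have hvne : v ≠ [] := by
      rw [← hv]; simp [hw]
    generalize hγ : X :: γ = γ0 at h'
    cases h' with
    | refl => exact absurd rfl hvne
    | eps h3 h4 =>
      simp only [List.cons.injEq] at hγ
      obtain ⟨rfl, rfl⟩ := hγ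
      rw [h1] at h3
      simp only [Sum.inl.injEq, Prod.mk.injEq] at h3
      obtain ⟨rfl, rfl⟩ := h3
      exact h4
    | read h3 h4 h5 =>
      simp only [List.cons.injEq] at hγ
      obtain ⟨rfl, rfl⟩ := hγ
      rw [h1] at h3
      simp at h3
  | @read q X γ f a q1 β u q' γ' h1 h2 _ ih =>
    intro w q'' γ'' hw h'
    apply ih hw
    generalize hv : (a :: u) ++ w = v at h'
    generalize hγ : X :: γ = γ0 at h'
    cases h' with
    | refl => simp at hv
    | eps h3 h4 =>
      simp only [List.cons.injEq] at hγ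
      obtain ⟨rfl, rfl⟩ := hγ
      rw [h1] at h3
      simp at h3
    | read h3 h4 h5 =>
      simp only [List.cons.injEq] at hγ
      obtain ⟨rfl, rfl⟩ := hγ
      simp only [List.cons_append, List.cons.injEq] at hv
      obtain ⟨rfl, rfl⟩ := hv
      rw [h1] at h3
      simp only [Sum.inr.injEq] at h3
      subst h3
      rw [h2] at h4
      simp only [Option.some.injEq, Prod.mk.injEq] at h4
      obtain ⟨rfl, rfl⟩ := h4
      exact h5

/-- a prefix of a computation -/
theorem Run.init_part {q : σ} {γ : List Γ} {v : List α} {q'' : σ} {γ'' : List Γ}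
    (h : M.Run q γ v q'' γ'') : ∀ u w : List α, v = u ++ w → ∃ q' γ', M.Run q γ u q' γ' := by
  induction h with
  | refl q γ =>
    intro u w h
    have : u = [] := (List.append_eq_nil_iff.1 h.symm).1
    subst this
    exact ⟨q, γ, Run.refl q γ⟩
  | eps h1 _ ih =>
    intro u w h
    obtain ⟨q', γ', h2⟩ := ih u w h
    exact ⟨q', γ', Run.eps h1 h2⟩
  | @read q X γ f a q1 β v q'' γ'' h1 h2 _ ih =>
    intro u w h
    cases u with
    | nil => exact ⟨q, X :: γ, Run.refl _ _⟩
    | cons b u =>
      simp only [List.cons_append, List.cons.injEq] at h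
      obtain ⟨rfl, h⟩ := h
      obtain ⟨q', γ', h3⟩ := ih u w h
      exact ⟨q', γ', Run.read h1 h2 h3⟩

/-- the stack is never emptied -/
def NE (M : DPDA α σ Γ) (q : σ) (γ : List Γ) : Prop := ∀ w q', ¬ M.Run q γ w q' []

/-- if the stack `γ` is never emptied, what is below it does not matter -/
theorem Run.unstack {q : σ} {γ0 : List Γ} {w : List α} {q' : σ} {γ' : List Γ}
    (h : M.Run q γ0 w q' γ') : ∀ γ ε : List Γ, γ0 = γ ++ ε → M.NE q γ →
      ∃ γ1, γ' = γ1 ++ ε ∧ M.Run q γ w q' γ1 := by
  induction h with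
  | refl q γ0 => intro γ ε h _; exact ⟨γ, h, Run.refl q γ⟩
  | @eps q X γ0 q1 β w q' γ' h1 _ ih =>
    intro γ ε h hne
    cases γ with
    | nil => exact absurd (Run.refl q []) (hne [] q)
    | cons Y γ =>
      simp only [List.cons_append, List.cons.injEq] at h
      obtain ⟨rfl, rfl⟩ := h
      obtain ⟨γ1, h2, h3⟩ := ih (β ++ γ) ε (by simp) (fun w q'' h4 => hne w q'' (Run.eps h1 h4))
      exact ⟨γ1, h2, Run.eps h1 h3⟩
  | @read q X γ0 f a q1 β w q' γ' h1 h1' _ ih =>
    intro γ ε h hne
    cases γ with
    | nil => exact absurd (Run.refl q []) (hne [] q)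
    | cons Y γ =>
      simp only [List.cons_append, List.cons.injEq] at h
      obtain ⟨rfl, rfl⟩ := h
      obtain ⟨γ1, h2, h3⟩ := ih (β ++ γ) ε (by simp)
        (fun w q'' h4 => hne (a :: w) q'' (Run.read h1 h1' h4))
      exact ⟨γ1, h2, Run.read h1 h1' h3⟩

/-- one can reach a configuration in which the top of the stack will never be removed -/
theorem exists_safe : ∀ (γ : List Γ) (q : σ), M.NE q γ →
    ∃ w q' X γ', M.Run q γ w q' (X :: γ') ∧ M.NE q' [X] := by
  intro γ
  induction γ with
  | nil => intro q h; exact absurd (Run.refl q []) (h [] q)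
  | cons X γ ih =>
    intro q h
    by_cases hX : M.NE q [X]
    · exact ⟨[], q, X, γ, Run.refl _ _, hX⟩
    · unfold NE at hX
      push Not at hX
      obtain ⟨w1, q1, h1⟩ := hX
      have h2 := h1.stack γ
      simp only [List.cons_append, List.nil_append] at h2
      obtain ⟨w, q', Y, γ', h3, h4⟩ := ih q1 (fun w q'' h5 => h (w1 ++ w) q'' (h2.trans h5))
      exact ⟨w1 ++ w, q', Y, γ', h2.trans h3, h4⟩

end DPDA

/-- An invariant set decided by a deterministic pushdown automaton is trivial. -/
theorem dpda_trivial {k : ℕ} (hk : 2 ≤ k) {B : Set ℕ} (hg : Inv (fun n => n ∈ B)) {σ Γ : Type}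
    [Finite σ] [Finite Γ] (M : DPDA (Fin k) σ Γ) (h : Decides k B M.language) :
    ∀ s s', 0 < s → 0 < s' → (s ∈ B ↔ s' ∈ B) := by
  classical
  let one : Fin k := ⟨1, by omega⟩
  let zero : Fin k := ⟨0, by omega⟩
  by_cases hal : ∀ u : List (Fin k), Lead u → ∃ q γ, M.Run M.start [M.bottom] u q γ
  · -- the stack is never emptied
    have hne : ∀ u : List (Fin k), Lead u → ∀ q γ, M.Run M.start [M.bottom] u q γ → M.NE q γ := by
      intro u hu q γ hR w q' h1
      have h2 := hR.trans h1
      obtain ⟨q2, γ2, h3⟩ := hal ((u ++ w) ++ [zero]) ((hu.append w).append _)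
      have h4 := h2.det (w := [zero]) (by simp) h3
      cases h4
    -- safe extensions
    have hsafe : ∀ n : ℕ, ∃ v : List (Fin k), Lead v ∧ n < v.length ∧ ∃ q X γ,
        M.Run M.start [M.bottom] v q (X :: γ) ∧ M.NE q [X] := by
      intro n
      have hu : Lead (one :: List.replicate n one) := ⟨one, _, rfl, by simp [one]⟩
      obtain ⟨q, γ, hR⟩ := hal _ hu
      obtain ⟨w, q', X, γ', h1, h2⟩ := DPDA.exists_safe γ q (hne _ hu q γ hR)
      exact ⟨(one :: List.replicate n one) ++ w, hu.append w, by simp, q', X, γ',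
        hR.trans h1, h2⟩
    choose v hvl hvn q X γ hv1 hv2 using hsafe
    obtain ⟨p, hp⟩ := Finite.exists_infinite_fiber (fun n => (q n, X n))
    have hinf : Set.Infinite ((fun n => (q n, X n)) ⁻¹' {p}) := Set.infinite_coe_iff.1 hp
    obtain ⟨n1, hn1⟩ := hinf.nonempty
    obtain ⟨n2, hn2, hn12⟩ := hinf.exists_gt (v n1).length
    have e1 : (q n1, X n1) = p := hn1
    have e2 : (q n2, X n2) = p := hn2
    have e3 : q n1 = q n2 ∧ X n1 = X n2 := by
      rw [← e2] at e1
      exact Prod.mk.injEq .. ▸ e1
    have hne12 : v n1 ≠ v n2 := by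
      intro h1
      have := hvn n2
      rw [← h1] at this
      omega
    have key : ∀ n w, w ≠ [] → (v n ++ w ∈ M.language ↔ ∃ q' γ', M.Run (q n) [X n] w q' γ' ∧ q' ∈ M.accept) := by
      intro n w hw
      constructor
      · rintro ⟨q', γ', h1, h2⟩
        have h3 := (hv1 n).det hw h1
        obtain ⟨γ1, _, h4⟩ := h3.unstack [X n] (γ n) rfl (hv2 n)
        exact ⟨q', γ1, h4, h2⟩
      · rintro ⟨q', γ', h1, h2⟩
        exact ⟨q', γ' ++ γ n, (hv1 n).trans (h1.stack (γ n)), h2⟩
    refine rigid_words hk hg h (hvl n1) (hvl n2) hne12 (fun w hw => ?_)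
    rw [key n1 w hw, key n2 w hw, e3.1, e3.2]
  · -- some word is dead
    push Not at hal
    obtain ⟨u, hu, hdead⟩ := hal
    have hd : ∀ w, u ++ w ∉ M.language := by
      rintro w ⟨q, γ, h1, _⟩
      obtain ⟨q', γ', h2⟩ := h1.init_part u w rfl
      exact hdead q' γ' h2
    refine rigid_words hk hg h (hu.append [zero]) (hu.append [one]) ?_ (fun w _ => ?_)
    · intro h1
      have := List.append_cancel_left h1
      simp [zero, one] at this
    · rw [List.append_assoc, List.append_assoc]
      exact ⟨fun h1 => absurd h1 (hd _), fun h1 => absurd h1 (hd _)⟩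

end Pool.Agent.W_e21d3a_h6
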