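import Pool.Agent.W_e21d3a_h6.Main

set_option autoImplicit false

/-!
# Digit words
-/

namespace Pool.Agent.W_e21d3a_h6

/-- the number with the base `k` digits `w`, most significant digit first -/
def num {k : ℕ} (w : List (Fin k)) : ℕ := w.foldl (fun (n : ℕ) (d : Fin k) => k * n + d.val) 0

theorem foldl_num {k : ℕ} (w : List (Fin k)) : ∀ n : ℕ,
    w.foldl (fun (n : ℕ) (d : Fin k) => k * n + d.val) n = k ^ w.length * n + num w := by
  induction w with
  | nil => intro n; simp [num]
  | cons d w ih =>
    intro n
    have h1 := ih (k * n + d)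
    have h2 := ih (k * 0 + d)
    unfold num at *
    simp only [List.foldl_cons, List.length_cons] at *
    rw [h1, h2, pow_succ]; ring

theorem num_append {k : ℕ} (u w : List (Fin k)) : num (u ++ w) = k ^ w.length * num u + num w := by
  rw [num, List.foldl_append, foldl_num]; rfl

theorem num_cons {k : ℕ} (d : Fin k) (w : List (Fin k)) : num (d :: w) = k ^ w.length * d + num w := by
  rw [show d :: w = [d] ++ w from rfl, num_append]
  simp [num]

theorem num_lt {k : ℕ} (w : List (Fin k)) : num w < k ^ w.length := by
  induction w with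
  | nil => simp [num]
  | cons d w ih =>
    rw [num_cons, List.length_cons, pow_succ]
    have h1 : (d : ℕ) + 1 ≤ k := d.2
    calc k ^ w.length * d + num w < k ^ w.length * d + k ^ w.length := by omega
      _ = k ^ w.length * (d + 1) := by ring
      _ ≤ _ := Nat.mul_le_mul_left _ h1

theorem exists_num {k : ℕ} (hk : 0 < k) : ∀ i r : ℕ, r < k ^ i → ∃ w : List (Fin k), w.length = i ∧
    num w = r := by
  intro i
  induction i with
  | zero => intro r hr; exact ⟨[], rfl, by have : r = 0 := by simpa using hr
                                           rw [this]; rfl⟩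
  | succ i ih =>
    intro r hr
    have h1 : r / k < k ^ i := by
      apply (Nat.div_lt_iff_lt_mul hk).2
      rw [← pow_succ]; exact hr
    obtain ⟨w, hw1, hw2⟩ := ih _ h1
    refine ⟨w ++ [⟨r % k, Nat.mod_lt _ hk⟩], by simp [hw1], ?_⟩
    rw [num_append, hw2]
    simp [num, Nat.div_add_mod]

/-- the first digit is not zero -/
def Lead {k : ℕ} (w : List (Fin k)) : Prop := ∃ d : Fin k, ∃ w', w = d :: w' ∧ (d : ℕ) ≠ 0

theorem Lead.append {k : ℕ} {u : List (Fin k)} (h : Lead u) (w : List (Fin k)) : Lead (u ++ w) := by
  obtain ⟨d, w', rfl, hd⟩ := h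
  exact ⟨d, w' ++ w, by simp, hd⟩

theorem Lead.num_pos {k : ℕ} {u : List (Fin k)} (h : Lead u) : 0 < num u := by
  obtain ⟨d, w', rfl, hd⟩ := h
  rw [num_cons]
  have h1 : 0 < k := by have := d.2; omega
  have h2 : 0 < k ^ w'.length * (d : ℕ) := Nat.mul_pos (by positivity) (by omega)
  omega

theorem digits_num {k : ℕ} (hk : 1 < k) (u : List (Fin k)) : Lead u →
    u.map Fin.val = (Nat.digits k (num u)).reverse := by
  induction u using List.reverseRecOn with
  | nil => rintro ⟨d, w, h, _⟩; simp at h
  | append_singleton u a ih =>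
    intro h
    rcases List.eq_nil_or_concat u with hu | ⟨u', b, hu⟩
    · subst hu
      obtain ⟨d, w, h, hd⟩ := h
      simp only [List.nil_append, List.cons.injEq] at h
      obtain ⟨rfl, h2⟩ := h
      have h3 : num ([] ++ [a]) = a := by simp [num]
      rw [h3, Nat.digits_of_lt k a hd a.2]
      simp
    · have hl : Lead u := by
        obtain ⟨d, w, h, hd⟩ := h
        rw [hu, List.concat_eq_append] at h
        rw [hu, List.concat_eq_append]
        cases u' with
        | nil =>
          simp only [List.nil_append, List.cons_append, List.cons.injEq] at h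
          exact ⟨b, [], by simp, by rw [h.1]; exact hd⟩
        | cons c u' =>
          simp only [List.cons_append, List.cons.injEq] at h
          exact ⟨c, u' ++ [b], by simp, by rw [h.1]; exact hd⟩
      have h1 : num (u ++ [a]) = a + k * num u := by rw [num_append]; simp [num]; ring
      rw [h1, Nat.digits_add k hk a (num u) a.2 (Or.inr hl.num_pos.ne')]
      simp [ih hl]

theorem num_inj {k : ℕ} (hk : 1 < k) {u v : List (Fin k)} (hu : Lead u) (hv : Lead v)
    (h : num u = num v) : u = v := by
  have h1 := digits_num hk u hu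
  have h2 := digits_num hk v hv
  rw [h, ← h2] at h1
  exact List.map_injective_iff.2 Fin.val_injective h1

/-- the language `L` decides membership in `B`, most significant digit first -/
def Decides (k : ℕ) (B : Set ℕ) (L : Set (List (Fin k))) : Prop :=
  ∀ n, 0 < n → ∀ w : List (Fin k), w.map Fin.val = (Nat.digits k n).reverse → (w ∈ L ↔ n ∈ B)

theorem Decides.lead {k : ℕ} (hk : 1 < k) {B : Set ℕ} {L : Set (List (Fin k))} (h : Decides k B L)
    {u : List (Fin k)} (hu : Lead u) : u ∈ L ↔ num u ∈ B :=
  h _ hu.num_pos u (digits_num hk u hu)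

/-- two different words with the same residual -/
theorem rigid_words {k : ℕ} (hk : 2 ≤ k) {B : Set ℕ} (hg : Inv (fun n => n ∈ B))
    {L : Set (List (Fin k))} (h : Decides k B L) {u v : List (Fin k)} (hu : Lead u) (hv : Lead v)
    (huv : u ≠ v) (hres : ∀ w, w ≠ [] → (u ++ w ∈ L ↔ v ++ w ∈ L)) :
    ∀ s s', 0 < s → 0 < s' → (s ∈ B ↔ s' ∈ B) := by
  have hne : num u ≠ num v := fun h1 => huv (num_inj (by omega) hu hv h1)
  refine rigid hg (fun P => P) hk hne ?_
  intro i r hr hri
  obtain ⟨w, hw1, hw2⟩ := exists_num (by omega) i r hri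
  have hw : w ≠ [] := by
    rintro rfl
    have : r = 0 := by rw [← hw2]; rfl
    omega
  have h1 := h.lead (by omega) (hu.append w)
  have h2 := h.lead (by omega) (hv.append w)
  rw [num_append, hw1, hw2] at h1 h2
  exact h2.symm.trans ((hres w hw).symm.trans h1)

end Pool.Agent.W_e21d3a_h6
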