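import Mathlib
import Pool.Agent.W_e21d3a_h6.Words
import Pool.Agent.W_e21d3a_h20.Auto

set_option autoImplicit false

/-!
# MP_e21d3a_lc : prefix rigidity of the Collatz set `A`

Let `k ≥ 2` be a base and `B` a set of positive integers with `n ∈ B ↔ f(n) ∈ B`, not empty and not
everything. For a prefix `m` (a natural number) and a word `w` of `i` digits with value `r`,
`0 < r < k^i`, let `m w = k^i m + r`. If `m ≠ n` then the membership of `n w` in `B` is not a
function of the membership of `m w`: at least three of the four membership patterns of `(m w, n w)`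
occur. In particular different prefixes are not Myhill-Nerode equivalent, and every deterministic
one-way device (with finitely or infinitely many states) which decides `B` and reads the most
significant digit first is in different states after reading different positive integers.

Proof. Let `T` be the shortcut map. Steering: for every residue class modulo `3^a` and all large `t`
every `z` prime to 3 has a preimage under `T^t` in the class with a given number of odd steps.
Coalescence: for every `C` there are classes of `x` modulo `2^j` such that `x` and `x + C` have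
the same image under `T^j` with the same number of odd steps. So a relation between `x` and
`x + A`, `A ≡ C` modulo `2^τ`, `x` in a window `[u, v)`, becomes a relation between
`z` and `z + 3^o (A - C) / 2^τ` for all `z` prime to 3 in the window `3^o / 2^τ [u, v)`. The equality
of two residuals gives relations with `A = k^i (n - m)`; two such relations with `3^o / 2^τ` (base 2:
`3^o` and `2^i`) very close to each other give a local period which is small with
respect to the window. Coalescence with `C = 1` and the theorem of Fine and Wilf replace it by a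
fixed power of 3; and every class of the equivalence relation generated by `T` has elements in every
large window, in every residue class prime to 3.
-/

namespace Pool.Agent.W_e21d3a_h6.ResPrefixRigidity

/-- the Collatz map -/
def col (m : ℕ) : ℕ := if m % 2 = 0 then m / 2 else 3 * m + 1

/-- the set of positive integers whose trajectory reaches 1 -/
def A : Set ℕ := {n | 0 < n ∧ ∃ k : ℕ, col^[k] n = 1}

theorem A_invariant : ∀ n, 0 < n → (n ∈ A ↔ col n ∈ A) := by
  intro n hn
  constructor
  · rintro ⟨_, k, hk⟩
    refine ⟨?_, ?_⟩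
    · unfold col; split <;> omega
    · cases k with
      | zero =>
        have : n = 1 := hk
        subst this
        exact ⟨2, by decide⟩
      | succ k => exact ⟨k, hk⟩
  · rintro ⟨_, k, hk⟩
    exact ⟨hn, k + 1, hk⟩

theorem one_mem : 1 ∈ A := ⟨one_pos, 0, rfl⟩

theorem inv_of {B : Set ℕ} (hB : ∀ n, 0 < n → (n ∈ B ↔ col n ∈ B)) :
    W_e21d3a_h6.Inv (fun n => n ∈ B) :=
  let h := W_e21d3a_h20.inv_of hB
  ⟨h.dbl, h.odd⟩

/-- For an invariant set which is neither empty nor everything, the membership of `n w` is not a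
function of the membership of `m w`. -/
theorem rigidity {B : Set ℕ} (hB : ∀ n, 0 < n → (n ∈ B ↔ col n ∈ B))
    (h1 : ∃ s, 0 < s ∧ s ∈ B) (h2 : ∃ s, 0 < s ∧ s ∉ B) {k : ℕ} (hk : 2 ≤ k) {m n : ℕ} (hmn : m ≠ n)
    (φ : Prop → Prop) :
    ∃ i r, 0 < r ∧ r < k ^ i ∧ ¬ (k ^ i * n + r ∈ B ↔ φ (k ^ i * m + r ∈ B)) := by
  by_contra hcon
  push Not at hcon
  obtain ⟨s, hs, hsB⟩ := h1
  obtain ⟨s', hs', hsB'⟩ := h2
  have h3 := W_e21d3a_h6.rigid (inv_of hB) φ hk hmn
    (fun i r hr hri => by
      have := hcon i r hr hri
      tauto) s s' hs hs'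
  exact hsB' (h3.1 hsB)

theorem result :
    (∀ B : Set ℕ, (∀ n, 0 < n → (n ∈ B ↔ col n ∈ B)) → (∃ s, 0 < s ∧ s ∈ B) → (∃ s, 0 < s ∧ s ∉ B) →
      ∀ k : ℕ, 2 ≤ k → ∀ m n : ℕ, m ≠ n → ∀ φ : Prop → Prop,
        ∃ i r, 0 < r ∧ r < k ^ i ∧ ¬ (k ^ i * n + r ∈ B ↔ φ (k ^ i * m + r ∈ B))) ∧
    ((∀ n, 0 < n → n ∈ A) ↔ ∃ k m n : ℕ, 2 ≤ k ∧ m ≠ n ∧
        ∀ i r, 0 < r → r < k ^ i → (k ^ i * m + r ∈ A ↔ k ^ i * n + r ∈ A)) := by
  refine ⟨fun B hB h1 h2 k hk m n hmn φ => rigidity hB h1 h2 hk hmn φ, ?_, ?_⟩
  · intro h
    exact ⟨2, 0, 1, le_rfl, by norm_num, fun i r hr _ => ⟨fun _ => h _ (by omega), fun _ => h _ (by omega)⟩⟩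
  · rintro ⟨k, m, n, hk, hmn, h⟩
    intro s hs
    by_contra hsA
    obtain ⟨i, r, hr, hri, h3⟩ := rigidity A_invariant ⟨1, one_pos, one_mem⟩ ⟨s, hs, hsA⟩ hk hmn
      (fun P => P)
    exact h3 (h i r hr hri).symm

end Pool.Agent.W_e21d3a_h6.ResPrefixRigidity
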