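import Mathlib
import Pool.Agent.W_e21d3a_h6.PDA
import Pool.Agent.W_e21d3a_h20.Final

set_option autoImplicit false

/-!
# MP_e21d3a_lc : the Collatz set `A` and deterministic pushdown automata

In every base `k ≥ 2`: a set of positive integers which is invariant under the Collatz map and is decided by
a deterministic pushdown automaton reading the base `k` digits, the most significant digit first (or by a finite
automaton reading them in either direction), is empty or contains all positive integers. Hence `A` is decided by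
such an automaton if and only if the Collatz conjecture holds.

Proof. Every configuration can be continued to one in which the top symbol of the stack will never be
removed; the language of the possible continuations then depends only on the state and the
top symbol. So there are two different words with the same residual, which is impossible by
the theorem on residuals (`W_e21d3a_h6.rigid`), see `Results/MP_e21d3a_lc/PrefixRigidity.lean`.
-/

namespace Pool.Agent.W_e21d3a_h6.ResPushdown

open W_e21d3a_h6 (DPDA)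

/-- the Collatz map -/
def col (m : ℕ) : ℕ := if m % 2 = 0 then m / 2 else 3 * m + 1

/-- the set of positive integers whose trajectory reaches 1 -/
def A : Set ℕ := {n | 0 < n ∧ ∃ k : ℕ, col^[k] n = 1}

/-- some deterministic pushdown automaton with finitely many states and finitely many stack symbols decides
membership of `n > 0` in `B` from the base `k` digits of `n`, read from the most significant digit on -/
def RecogDPDA (k : ℕ) (B : Set ℕ) : Prop :=
  ∃ (σ Γ : Type) (_ : Finite σ) (_ : Finite Γ) (M : DPDA (Fin k) σ Γ), ∀ n, 0 < n →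
    ∀ w : List (Fin k), w.map Fin.val = (Nat.digits k n).reverse → (w ∈ M.language ↔ n ∈ B)

/-- some finite automaton decides membership of `n > 0` in `B` from the base `k` digits of `n`, read from
the least significant digit on -/
def RecogLSB (k : ℕ) (B : Set ℕ) : Prop :=
  ∃ (σ : Type) (_ : Fintype σ) (M : DFA (Fin k) σ), ∀ n, 0 < n →
    ∀ w : List (Fin k), w.map Fin.val = Nat.digits k n → (w ∈ M.accepts ↔ n ∈ B)

/-- the same, read from the most significant digit on -/
def RecogMSB (k : ℕ) (B : Set ℕ) : Prop :=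
  ∃ (σ : Type) (_ : Fintype σ) (M : DFA (Fin k) σ), ∀ n, 0 < n →
    ∀ w : List (Fin k), w.map Fin.val = (Nat.digits k n).reverse → (w ∈ M.accepts ↔ n ∈ B)

theorem inv_of {B : Set ℕ} (hB : ∀ n, 0 < n → (n ∈ B ↔ col n ∈ B)) :
    W_e21d3a_h6.Inv (fun n => n ∈ B) :=
  let h := W_e21d3a_h20.inv_of hB
  ⟨h.dbl, h.odd⟩

theorem invariant_trivial {k : ℕ} (hk : 2 ≤ k) {B : Set ℕ}
    (hB : ∀ n, 0 < n → (n ∈ B ↔ col n ∈ B)) (h : RecogDPDA k B ∨ RecogLSB k B ∨ RecogMSB k B) :
    (∀ n, 0 < n → n ∈ B) ∨ (∀ n, 0 < n → n ∉ B) := by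
  rcases h with h | h
  swap
  · exact W_e21d3a_h20.main_all hk hB h
  obtain ⟨σ, Γ, _, _, M, hM⟩ := h
  have h1 := W_e21d3a_h6.dpda_trivial hk (inv_of hB) M hM
  by_cases h2 : 1 ∈ B
  · exact Or.inl fun n hn => (h1 1 n one_pos hn).1 h2
  · exact Or.inr fun n hn h3 => h2 ((h1 n 1 hn one_pos).1 h3)

theorem A_invariant : ∀ n, 0 < n → (n ∈ A ↔ col n ∈ A) := by
  intro n hn
  constructor
  · rintro ⟨_, k, hk⟩
    refine ⟨?_, ?_⟩
    · unfold col; split <;> omega
    · cases k with
      | zero =>
        have : n = 1 := hk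
        subst this
        exact ⟨2, by decide⟩
      | succ k => exact ⟨k, hk⟩
  · rintro ⟨_, k, hk⟩
    exact ⟨hn, k + 1, hk⟩

/-- the automaton which accepts all words -/
def allM (k : ℕ) : DPDA (Fin k) Unit Unit where
  start := ()
  bottom := ()
  δ := fun _ _ => Sum.inr fun _ => some ((), [()])
  accept := Set.univ

theorem allM_run {k : ℕ} (w : List (Fin k)) : (allM k).Run () [()] w () [()] := by
  induction w with
  | nil => exact DPDA.Run.refl _ _
  | cons a w ih => exact DPDA.Run.read rfl rfl ih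

/-- if everything is in `B` then the automaton which accepts all words does it -/
theorem recog_of_all {k : ℕ} {B : Set ℕ} (h : ∀ n, 0 < n → n ∈ B) : RecogLSB k B ∧ RecogMSB k B := by
  refine ⟨⟨Unit, inferInstance, ⟨fun _ _ => (), (), Set.univ⟩, fun n hn w _ => ?_⟩,
    ⟨Unit, inferInstance, ⟨fun _ _ => (), (), Set.univ⟩, fun n hn w _ => ?_⟩⟩
  · exact ⟨fun _ => h n hn, fun _ => Set.mem_univ _⟩
  · exact ⟨fun _ => h n hn, fun _ => Set.mem_univ _⟩

theorem result :
    (∀ k : ℕ, 2 ≤ k → ∀ B : Set ℕ, (∀ n, 0 < n → (n ∈ B ↔ col n ∈ B)) →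
      (RecogDPDA k B ∨ RecogLSB k B ∨ RecogMSB k B) →
      (∀ n, 0 < n → n ∈ B) ∨ (∀ n, 0 < n → n ∉ B)) ∧
    (∀ k : ℕ, 2 ≤ k → (RecogDPDA k A ↔ ∀ n, 0 < n → n ∈ A) ∧ (RecogLSB k A ↔ ∀ n, 0 < n → n ∈ A) ∧
      (RecogMSB k A ↔ ∀ n, 0 < n → n ∈ A)) := by
  refine ⟨fun k hk B hB h => invariant_trivial hk hB h, fun k hk => ?_⟩
  have key : RecogDPDA k A ∨ RecogLSB k A ∨ RecogMSB k A → ∀ n, 0 < n → n ∈ A := by
    intro h
    rcases invariant_trivial hk A_invariant h with h | h
    · exact h
    · exact absurd ⟨one_pos, 0, rfl⟩ (h 1 one_pos)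
  refine ⟨⟨fun h => key (Or.inl h), fun h => ?_⟩, ⟨fun h => key (Or.inr (Or.inl h)), fun h =>
    (recog_of_all h).1⟩, ⟨fun h => key (Or.inr (Or.inr h)), fun h => (recog_of_all h).2⟩⟩
  exact ⟨Unit, Unit, inferInstance, inferInstance, allM k, fun n hn w _ =>
      ⟨fun _ => h n hn, fun _ => ⟨(), [()], allM_run w, Set.mem_univ _⟩⟩⟩

end Pool.Agent.W_e21d3a_h6.ResPushdown
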