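import Pool.Agent.W_e21d3a_h6.Basic

set_option autoImplicit false

/-!
# Steering backward orbits; coalescence of `x` and `x + C`
-/

namespace Pool.Agent.W_e21d3a_h6

/-- `2 ^ (2 * 3 ^ a) = 1 + 3 ^ (a + 1) c`, `c` prime to 3 -/
theorem two_pow_order (a : ℕ) : ∃ c, c % 3 ≠ 0 ∧ 2 ^ (2 * 3 ^ a) = 1 + 3 ^ (a + 1) * c := by
  induction a with
  | zero => exact ⟨1, by norm_num, by norm_num⟩
  | succ a ih =>
    obtain ⟨c, hc, h⟩ := ih
    refine ⟨c + 3 ^ (a + 1) * c ^ 2 + 3 ^ (2 * a + 1) * c ^ 3, ?_, ?_⟩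
    · rw [show c + 3 ^ (a + 1) * c ^ 2 + 3 ^ (2 * a + 1) * c ^ 3 =
        c + 3 * (3 ^ a * c ^ 2 + 3 ^ (2 * a) * c ^ 3) by rw [pow_succ, pow_succ]; ring]
      omega
    · calc 2 ^ (2 * 3 ^ (a + 1)) = (2 ^ (2 * 3 ^ a)) ^ 3 := by rw [← pow_mul, pow_succ]; ring_nf
        _ = _ := by rw [h]; ring

/-- `2` is a primitive root modulo the powers of 3 -/
theorem exists_two_pow (a : ℕ) : ∀ u : ℕ, u % 3 ≠ 0 → ∃ e, e < 2 * 3 ^ a ∧
    2 ^ e ≡ u [MOD 3 ^ (a + 1)] := by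
  induction a with
  | zero =>
    intro u hu
    have : u % 3 = 1 ∨ u % 3 = 2 := by omega
    rcases this with h | h
    · exact ⟨0, by norm_num, by rw [Nat.ModEq]; norm_num; omega⟩
    · exact ⟨1, by norm_num, by rw [Nat.ModEq]; norm_num; omega⟩
  | succ a ih =>
    intro u hu
    obtain ⟨e, he, h⟩ := ih u hu
    obtain ⟨c, hc, hord⟩ := two_pow_order a
    -- 2 ^ e = u + 3 ^ (a+1) v
    have hz := (Nat.modEq_iff_dvd.1 h)
    obtain ⟨v, hv⟩ := hz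
    push_cast at hv
    have h2e : ∃ w : ℕ, w % 3 ≠ 0 ∧ w = 2 ^ e := ⟨2 ^ e, by
      have := Nat.ModEq.of_dvd (Dvd.intro_left (3 ^ a) rfl : (3:ℕ) ∣ 3 ^ (a + 1)) h
      rw [this]; exact hu, rfl⟩
    obtain ⟨w, hw3, hw⟩ := h2e
    -- choose j < 3 with v ≡ j c w mod 3
    have hj : ∃ j : ℕ, j < 3 ∧ (3:ℤ) ∣ (v - j * c * w) := by
      have hc' : (c : ℤ) % 3 = 1 ∨ (c : ℤ) % 3 = 2 := by omega
      have hw' : (w : ℤ) % 3 = 1 ∨ (w : ℤ) % 3 = 2 := by omega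
      have hv' : v % 3 = 0 ∨ v % 3 = 1 ∨ v % 3 = 2 := by omega
      have key : ∀ j : ℕ, ((v - j * c * w) % 3 = (v % 3 - (j:ℤ) * (c % 3) * (w % 3)) % 3) := by
        intro j
        simp [Int.sub_emod, Int.mul_emod]
      rcases hv' with hv' | hv' | hv' <;> rcases hc' with hc' | hc' <;>
        rcases hw' with hw' | hw'
      all_goals first
        | (refine ⟨0, by norm_num, Int.dvd_of_emod_eq_zero ?_⟩; rw [key, hv', hc', hw']; decide)
        | (refine ⟨1, by norm_num, Int.dvd_of_emod_eq_zero ?_⟩; rw [key, hv', hc', hw']; decide)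
        | (refine ⟨2, by norm_num, Int.dvd_of_emod_eq_zero ?_⟩; rw [key, hv', hc', hw']; decide)
    obtain ⟨j, hj3, hj⟩ := hj
    refine ⟨e + 2 * 3 ^ a * j, ?_, ?_⟩
    · rw [pow_succ]
      have : 3 ^ a * j ≤ 3 ^ a * 2 := Nat.mul_le_mul_left _ (by omega)
      nlinarith
    · rw [Nat.modEq_iff_dvd]
      obtain ⟨t, ht⟩ := hj
      have hpow : ∃ s : ℤ, ((2:ℤ) ^ (2 * 3 ^ a * j)) = 1 + 3 ^ (a + 1) * (j * c) + 3 ^ (a + 2) * s := by
        have hord' : (2:ℤ) ^ (2 * 3 ^ a) = 1 + 3 ^ (a + 1) * c := by exact_mod_cast hord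
        rw [pow_mul, hord']
        have : j = 0 ∨ j = 1 ∨ j = 2 := by omega
        rcases this with rfl | rfl | rfl
        · exact ⟨0, by simp⟩
        · exact ⟨0, by simp⟩
        · exact ⟨3 ^ a * c ^ 2, by push_cast; ring⟩
      obtain ⟨s, hs⟩ := hpow
      push_cast
      have hsplit : (2:ℤ) ^ (e + 2 * 3 ^ a * j) = 2 ^ e * 2 ^ (2 * 3 ^ a * j) := pow_add _ _ _
      rw [hsplit, hs]
      have hw'' : (2:ℤ) ^ e = w := by rw [hw]; push_cast; rfl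
      rw [hw''] at hv ⊢
      refine ⟨t - w * s, ?_⟩
      have : (u : ℤ) = w + 3 ^ (a + 1) * v := by linarith
      rw [this]
      have hvv : v = 3 * t + j * c * w := by linarith
      rw [hvv]
      ring

/-- one odd backward step to a number prime to 3 -/
theorem back_one {z : ℕ} (hz : z % 3 ≠ 0) : ∃ s z', 1 ≤ s ∧ s ≤ 4 ∧ z' % 3 ≠ 0 ∧ R s 1 z' z := by
  have key : ∀ s w : ℕ, 3 * w + 2 = 2 ^ s * z → R (s + 1) 1 (2 * w + 1) z := by
    intro s w h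
    exact R.odd' (R.pow s z) rfl h.symm
  have : z % 9 = 1 ∨ z % 9 = 2 ∨ z % 9 = 4 ∨ z % 9 = 5 ∨ z % 9 = 7 ∨ z % 9 = 8 := by omega
  rcases this with h | h | h | h | h | h
  · exact ⟨2, 2 * ((2 * z - 2) / 3) + 1, by norm_num, by norm_num, by omega,
      key 1 _ (by omega)⟩
  · exact ⟨1, 2 * ((z - 2) / 3) + 1, by norm_num, by norm_num, by omega, key 0 _ (by omega)⟩
  · exact ⟨2, 2 * ((2 * z - 2) / 3) + 1, by norm_num, by norm_num, by omega,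
      key 1 _ (by omega)⟩
  · exact ⟨3, 2 * ((4 * z - 2) / 3) + 1, by norm_num, by norm_num, by omega,
      key 2 _ (by omega)⟩
  · exact ⟨4, 2 * ((8 * z - 2) / 3) + 1, by norm_num, by norm_num, by omega,
      key 3 _ (by omega)⟩
  · exact ⟨1, 2 * ((z - 2) / 3) + 1, by norm_num, by norm_num, by omega, key 0 _ (by omega)⟩

/-- steering with one odd step -/
theorem steer_one (a b t z : ℕ) (ht : 2 * 3 ^ a < t) (hz : z % 3 ≠ 0) :
    ∃ y, y ≡ b [MOD 3 ^ a] ∧ R t 1 y z := by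
  have h3 : 0 < 3 ^ (a + 1) := by positivity
  -- u = 2^t z - 3 b mod 3^(a+1)
  obtain ⟨e, he, h⟩ := exists_two_pow a (2 ^ t * z + 3 * (3 ^ (a + 1) - 1) * b) (by
    have h2 : (2 ^ t * z) % 3 ≠ 0 := by
      intro h0
      have := (Nat.Prime.dvd_mul Nat.prime_three).1 (Nat.dvd_of_mod_eq_zero h0)
      rcases this with h1 | h1
      · have := Nat.Prime.dvd_of_dvd_pow Nat.prime_three h1
        omega
      · omega
    rw [show 2 ^ t * z + 3 * (3 ^ (a + 1) - 1) * b = 2 ^ t * z + 3 * ((3 ^ (a + 1) - 1) * b) by ring]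
    omega)
  obtain ⟨s, rfl⟩ : ∃ s, t = e + (s + 1) := ⟨t - e - 1, by omega⟩
  -- 2^e + 3 b ≡ 2^t z mod 3^(a+1)
  have h1 : 2 ^ e + 3 * b ≡ 2 ^ (e + (s + 1)) * z [MOD 3 ^ (a + 1)] := by
    have h2 := Nat.ModEq.add_right (3 * b) h
    have h4 : 2 ^ (e + (s + 1)) * z + 3 * (3 ^ (a + 1) - 1) * b + 3 * b =
        2 ^ (e + (s + 1)) * z + 3 ^ (a + 1) * (3 * b) := by
      obtain ⟨q, hq⟩ : ∃ q, 3 ^ (a + 1) = q + 1 := ⟨3 ^ (a + 1) - 1, by omega⟩
      rw [hq]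
      simp only [Nat.add_sub_cancel]
      ring
    rw [h4] at h2
    refine h2.trans ?_
    rw [Nat.ModEq]; simp
  -- 2^(s+1) z = 3 (2w+1) + 1
  have h5 : (2 ^ e * 1) ≡ 2 ^ e * (2 ^ (s + 1) * z) [MOD 3] := by
    have h6 := Nat.ModEq.of_dvd (Dvd.intro_left (3 ^ a) rfl : (3:ℕ) ∣ 3 ^ (a + 1)) h1
    have h7 : 2 ^ e + 3 * b ≡ 2 ^ e * 1 [MOD 3] := by rw [Nat.ModEq]; simp
    have h8 : 2 ^ (e + (s + 1)) * z = 2 ^ e * (2 ^ (s + 1) * z) := by rw [pow_add]; ring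
    rw [h8] at h6
    exact h7.symm.trans h6
  have h9 : 1 ≡ 2 ^ (s + 1) * z [MOD 3] :=
    Nat.ModEq.cancel_left_of_coprime (Nat.Coprime.pow_right _ (by norm_num)) h5
  have h10 : (2 ^ (s + 1) * z) % 3 = 1 := by rw [Nat.ModEq] at h9; omega
  have h11 : 2 ^ (s + 1) * z = 2 * (2 ^ s * z) := by rw [pow_succ]; ring
  obtain ⟨w, hw⟩ : ∃ w, 3 * w + 2 = 2 ^ s * z := ⟨(2 ^ s * z - 2) / 3, by omega⟩
  refine ⟨2 ^ e * (2 * w + 1), ?_, ?_⟩
  · -- 3 y + 2^e = 2^t z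
    have h12 : 3 * (2 ^ e * (2 * w + 1)) + 2 ^ e = 2 ^ (e + (s + 1)) * z := by
      rw [pow_add, mul_assoc, h11, ← hw]; ring
    rw [← h12] at h1
    have h13 : 3 * b ≡ 3 * (2 ^ e * (2 * w + 1)) [MOD 3 * 3 ^ a] := by
      rw [pow_succ, mul_comm (3 ^ a) 3] at h1
      have h14 : 2 ^ e + 3 * b ≡ 2 ^ e + 3 * (2 ^ e * (2 * w + 1)) [MOD 3 * 3 ^ a] := by
        rw [add_comm (2 ^ e) (3 * (2 ^ e * (2 * w + 1)))]; exact h1
      exact Nat.ModEq.add_left_cancel' _ h14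
    exact (Nat.ModEq.mul_left_cancel' (by norm_num) h13).symm
  · have h15 := (R.pow e (2 * w + 1)).trans (R.odd' (R.pow s z) rfl hw.symm)
    rwa [zero_add] at h15

/-- steering with `o + 1` odd steps -/
theorem steer (a b : ℕ) : ∀ o t z : ℕ, 2 * 3 ^ a + 4 * o < t → z % 3 ≠ 0 →
    ∃ y, y ≡ b [MOD 3 ^ a] ∧ R t (o + 1) y z := by
  intro o
  induction o with
  | zero => intro t z ht hz; exact steer_one a b t z (by omega) hz
  | succ o ih =>
    intro t z ht hz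
    obtain ⟨s, z', hs1, hs4, hz', hR⟩ := back_one hz
    obtain ⟨y, hy, hR'⟩ := ih (t - s) z' (by omega) hz'
    refine ⟨y, hy, ?_⟩
    have h1 := hR'.trans hR
    rwa [show t - s + s = t by omega] at h1

/-- `r` and `r + C` are sent to the same number in the same number of steps, with the same number
of odd steps -/
theorem coal : ∀ C : ℕ, ∃ j a b r, R j a r b ∧ R j a (r + C) b := by
  intro C
  induction C using Nat.strong_induction_on with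
  | _ C ih =>
    have h4 : C = 0 ∨ C = 1 ∨ (∃ f, 0 < f ∧ C = 2 * f) ∨ (∃ f, C = 4 * f + 3) ∨
        (∃ f, 0 < f ∧ C = 4 * f + 1) := by
      have : C % 4 = 0 ∨ C % 4 = 1 ∨ C % 4 = 2 ∨ C % 4 = 3 := by omega
      rcases Nat.eq_zero_or_pos C with h | h
      · exact Or.inl h
      rcases this with h' | h' | h' | h'
      · exact Or.inr (Or.inr (Or.inl ⟨C / 2, by omega, by omega⟩))
      · rcases Nat.lt_or_ge 1 C with h1 | h1
        · exact Or.inr (Or.inr (Or.inr (Or.inr ⟨C / 4, by omega, by omega⟩)))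
        · exact Or.inr (Or.inl (by omega))
      · exact Or.inr (Or.inr (Or.inl ⟨C / 2, by omega, by omega⟩))
      · exact Or.inr (Or.inr (Or.inr (Or.inl ⟨C / 4, by omega⟩)))
    have lift : ∀ (j r c : ℕ), ∃ σ w, 3 * w + 2 = 2 ^ j * σ + r + c := by
      intro j r c
      have h2 : (2 ^ j) % 3 = 1 ∨ (2 ^ j) % 3 = 2 := by
        induction j with
        | zero => left; norm_num
        | succ j ih => rw [pow_succ]; omega
      have h2p : 1 ≤ 2 ^ j := Nat.one_le_two_pow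
      have : (r + c) % 3 = 0 ∨ (r + c) % 3 = 1 ∨ (r + c) % 3 = 2 := by omega
      rcases h2 with h2 | h2 <;> rcases this with h | h | h
      · exact ⟨2, (2 ^ j * 2 + r + c - 2) / 3, by omega⟩
      · exact ⟨4, (2 ^ j * 4 + r + c - 2) / 3, by omega⟩
      · exact ⟨3, (2 ^ j * 3 + r + c - 2) / 3, by omega⟩
      · exact ⟨4, (2 ^ j * 4 + r + c - 2) / 3, by omega⟩
      · exact ⟨2, (2 ^ j * 2 + r + c - 2) / 3, by omega⟩
      · exact ⟨3, (2 ^ j * 3 + r + c - 2) / 3, by omega⟩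
    rcases h4 with rfl | rfl | ⟨f, hf, rfl⟩ | ⟨f, rfl⟩ | ⟨f, hf, rfl⟩
    · exact ⟨0, 0, 0, 0, R.refl 0, R.refl 0⟩
    · refine ⟨3, 1, 2, 4, ?_, ?_⟩
      · exact R.even' (x := 2) (R.even' (x := 1) (R.odd' (x := 0) (R.refl 2) rfl rfl) rfl) rfl
      · exact R.odd' (x := 2) (R.even' (x := 4) (R.even' (x := 2) (R.refl 2) rfl) rfl) rfl rfl
    · obtain ⟨j, a, b, r, h1, h2⟩ := ih f (by omega)
      exact ⟨j + 1, a, b, 2 * r, R.even h1, R.even' h2 (by ring)⟩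
    · obtain ⟨j, a, b, r, h1, h2⟩ := ih (3 * f + 2) (by omega)
      obtain ⟨σ, w, hw⟩ := lift j r 0
      have e1 := h1.add σ
      have e2 := h2.add σ
      refine ⟨j + 2, a + 1, b + 3 ^ a * σ, 4 * w + 2, ?_, ?_⟩
      · exact R.even' (x := 2 * w + 1) (R.odd' (x := w) e1 rfl (by omega)) (by ring)
      · refine R.odd' (x := 2 * w + 2 * f + 2) (w := 6 * w + 6 * f + 8) ?_ (by ring) (by ring)
        exact R.even' e2 (by omega)
    · obtain ⟨j, a, b, r, h1, h2⟩ := ih (3 * f + 1) (by omega)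
      obtain ⟨σ, w, hw⟩ := lift j r 1
      have e1 := h1.add σ
      have e2 := h2.add σ
      -- 3 w + 1 = 2^j σ + r
      refine ⟨j + 2, a + 1, b + 3 ^ a * σ, 4 * w + 1, ?_, ?_⟩
      · refine R.odd' (x := 2 * w) (w := 6 * w + 2) ?_ (by ring) (by ring)
        exact R.even' e1 (by omega)
      · refine R.even' (x := 2 * w + 2 * f + 1) ?_ (by ring)
        exact R.odd' (x := w + f) e2 (by ring) (by omega)

/-- For every `z ≥ Z` prime to 3 there is `x`, prime to 3, such that `x` and `x + C` are sent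
to `z` in `τ` steps, `o` of them odd. -/
def Adm (C o τ Z : ℕ) : Prop :=
  ∀ z, Z ≤ z → z % 3 ≠ 0 → ∃ x, x % 3 ≠ 0 ∧ R τ o x z ∧ R τ o (x + C) z

theorem adm (C : ℕ) : ∃ q c z0 : ℕ, ∀ o τ, q ≤ o → c + 4 * o ≤ τ → Adm C o τ (3 ^ o * z0) := by
  obtain ⟨j, a, b, r, h1, h2⟩ := coal C
  refine ⟨a + 1, j + 2 * 3 ^ (a + 1) + 1, 3 ^ (a + 1) + b + 1, fun o τ ho hτ => ?_⟩
  obtain ⟨o1, rfl⟩ : ∃ o1, o = a + (o1 + 1) := ⟨o - a - 1, by omega⟩
  obtain ⟨t, rfl⟩ : ∃ t, τ = j + t := ⟨τ - j, by omega⟩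
  -- choose μ with 2^j μ + r prime to 3
  obtain ⟨μ, hμ3, hμ⟩ : ∃ μ, μ < 3 ∧ (2 ^ j * μ + r) % 3 ≠ 0 := by
    by_cases hr : r % 3 = 0
    · refine ⟨1, by norm_num, ?_⟩
      have : (2 ^ j) % 3 ≠ 0 := by
        intro h0
        have := Nat.Prime.dvd_of_dvd_pow Nat.prime_three (Nat.dvd_of_mod_eq_zero h0)
        omega
      omega
    · exact ⟨0, by norm_num, by simpa using hr⟩
  intro z hz' hz3
  have hz : 3 ^ (o1 + 1) * (3 ^ (a + 1) + b + 1) ≤ z :=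
    (Nat.mul_le_mul_right _ (Nat.pow_le_pow_right (by norm_num) (by omega))).trans hz'
  obtain ⟨y, hy, hR⟩ := steer (a + 1) (3 ^ a * μ + b) o1 t z (by omega) hz3
  have hylb : 3 ^ a * μ + b ≤ y := by
    have h3 := hR.lt
    have h4 : 2 ^ t * (3 ^ (o1 + 1) * (3 ^ (a + 1) + b + 1)) ≤ 2 ^ t * z := Nat.mul_le_mul_left _ hz
    have h5 : 3 ^ (o1 + 1) * (2 ^ t * (3 ^ (a + 1) + b + 1)) ≤ 3 ^ (o1 + 1) * (y + 2 ^ t) := by
      calc 3 ^ (o1 + 1) * (2 ^ t * (3 ^ (a + 1) + b + 1))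
          = 2 ^ t * (3 ^ (o1 + 1) * (3 ^ (a + 1) + b + 1)) := by ring
        _ ≤ _ := h4.trans ((Nat.le_add_right _ _).trans h3)
    have h6 := Nat.le_of_mul_le_mul_left h5 (by positivity)
    have h7 : 1 ≤ 2 ^ t := Nat.one_le_two_pow
    have h8 : 3 ^ a * μ + b ≤ 3 ^ (a + 1) + b := by
      rw [pow_succ]
      have : 3 ^ a * μ ≤ 3 ^ a * 3 := Nat.mul_le_mul_left _ (by omega)
      omega
    nlinarith
  -- y = 3^a m + b with m ≡ μ mod 3
  obtain ⟨v, hv⟩ : ∃ v, y = 3 ^ a * μ + b + 3 ^ (a + 1) * v := by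
    have h9 := (Nat.modEq_iff_dvd' hylb).1 hy.symm
    obtain ⟨v, hv⟩ := h9
    exact ⟨v, by omega⟩
  have hv' : y = b + 3 ^ a * (μ + 3 * v) := by rw [hv, pow_succ]; ring
  refine ⟨r + 2 ^ j * (μ + 3 * v), ?_, ?_, ?_⟩
  · rw [show r + 2 ^ j * (μ + 3 * v) = (2 ^ j * μ + r) + 3 * (2 ^ j * v) by ring]
    omega
  · have h10 := h1.add (μ + 3 * v)
    rw [← hv'] at h10
    exact h10.trans hR
  · have h10 := h2.add (μ + 3 * v)
    rw [← hv'] at h10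
    have h11 := h10.trans hR
    rwa [show r + C + 2 ^ j * (μ + 3 * v) = r + 2 ^ j * (μ + 3 * v) + C by ring] at h11

end Pool.Agent.W_e21d3a_h6
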